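import Mathlib

set_option autoImplicit false

namespace Pool.Agent.H956R2.HK

open MvPolynomial

section LinAlg

variable {k V U Q : Type*} [Field k] [AddCommGroup V] [Module k V] [AddCommGroup U] [Module k U]
  [AddCommGroup Q] [Module k Q]

lemma exists_factor (φ : V →ₗ[k] U) (hφ : Function.Surjective φ) (ψ : V →ₗ[k] Q)
    (h : LinearMap.ker φ ≤ LinearMap.ker ψ) : ∃ θ : U →ₗ[k] Q, θ ∘ₗ φ = ψ := by
  refine ⟨(LinearMap.ker φ).liftQ ψ h ∘ₗ (φ.quotKerEquivOfSurjective hφ).symm.toLinearMap, ?_⟩
  ext v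
  have : (φ.quotKerEquivOfSurjective hφ).symm (φ v) = Submodule.Quotient.mk v := by
    rw [LinearEquiv.symm_apply_eq]
    rfl
  simp [this]

/-- the fundamental count -/
lemma finrank_add_finrank_map_ker [FiniteDimensional k U] (φ : V →ₗ[k] U)
    (hφ : Function.Surjective φ) (ψ : V →ₗ[k] Q) (hψ : Function.Surjective ψ)
    (h : LinearMap.ker φ ≤ LinearMap.ker ψ) :
    Module.finrank k Q + Module.finrank k ((LinearMap.ker ψ).map φ) = Module.finrank k U ∧
      FiniteDimensional k Q := by
  obtain ⟨θ, hθ⟩ := exists_factor φ hφ ψ h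
  have hs : Function.Surjective θ := by
    intro q
    obtain ⟨v, rfl⟩ := hψ q
    exact ⟨φ v, by rw [← hθ]; rfl⟩
  have hk : LinearMap.ker θ = (LinearMap.ker ψ).map φ := by
    ext u
    rw [LinearMap.mem_ker, Submodule.mem_map]
    constructor
    · intro hu
      obtain ⟨v, rfl⟩ := hφ u
      exact ⟨v, by rw [LinearMap.mem_ker, ← hθ]; exact hu, rfl⟩
    · rintro ⟨v, hv, rfl⟩
      rw [LinearMap.mem_ker, ← hθ] at hv
      exact hv
  refine ⟨?_, Module.Finite.of_surjective θ hs⟩
  rw [← hk, ← LinearMap.finrank_range_add_finrank_ker θ, LinearMap.range_eq_top.2 hs, finrank_top]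

lemma finrank_range_le_of_ker_le [FiniteDimensional k U] (φ : V →ₗ[k] U)
    (hφ : Function.Surjective φ) (ψ : V →ₗ[k] Q)
    (h : LinearMap.ker φ ≤ LinearMap.ker ψ) :
    Module.finrank k (LinearMap.range ψ) ≤ Module.finrank k U := by
  obtain ⟨θ, hθ⟩ := exists_factor φ hφ ψ h
  have : LinearMap.range ψ = LinearMap.range θ := by
    rw [← hθ, LinearMap.range_comp_of_range_eq_top]
    exact LinearMap.range_eq_top.2 hφ
  rw [this]
  exact LinearMap.finrank_range_le θ

end LinAlg

section Basics

variable {k : Type*} [Field k]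

/-- the exponent with given coordinates -/
noncomputable def ex (s : ℕ × ℕ) : Fin 2 →₀ ℕ := Finsupp.single 0 s.1 + Finsupp.single 1 s.2

@[simp] lemma ex_zero (s : ℕ × ℕ) : ex s 0 = s.1 := by simp [ex]
@[simp] lemma ex_one (s : ℕ × ℕ) : ex s 1 = s.2 := by simp [ex]

lemma ex_inj : Function.Injective ex := by
  intro s t h
  have h0 := DFunLike.congr_fun h 0
  have h1 := DFunLike.congr_fun h 1
  simp at h0 h1
  exact Prod.ext h0 h1

lemma ex_eta (m : Fin 2 →₀ ℕ) : ex (m 0, m 1) = m := by
  ext i
  fin_cases i <;> simp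

lemma degree_fin2 (m : Fin 2 →₀ ℕ) : m.degree = m 0 + m 1 := by
  rw [Finsupp.degree_eq_sum]
  simp [Fin.sum_univ_two]

variable (k) in
/-- extraction of the coefficients with exponents in a finite set -/
noncomputable def tau (S : Finset (ℕ × ℕ)) : MvPolynomial (Fin 2) k →ₗ[k] (S → k) :=
  LinearMap.pi (fun s => MvPolynomial.lcoeff k (ex s.1))

@[simp] lemma tau_apply (S : Finset (ℕ × ℕ)) (f : MvPolynomial (Fin 2) k) (s : S) :
    tau k S f s = coeff (ex s.1) f := rfl

lemma tau_surj (S : Finset (ℕ × ℕ)) : Function.Surjective (tau k S) := by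
  intro c
  classical
  refine ⟨∑ s : S, monomial (ex s.1) (c s), ?_⟩
  ext s
  rw [tau_apply, coeff_sum]
  simp only [coeff_monomial]
  rw [Finset.sum_eq_single s]
  · simp
  · intro b _ hb
    rw [if_neg]
    intro h
    exact hb (Subtype.ext (ex_inj h))
  · simp

lemma mem_ker_tau {S : Finset (ℕ × ℕ)} {f : MvPolynomial (Fin 2) k} :
    f ∈ LinearMap.ker (tau k S) ↔ ∀ s ∈ S, coeff (ex s) f = 0 := by
  rw [LinearMap.mem_ker]
  constructor
  · intro h s hs
    have := congrFun h ⟨s, hs⟩
    simpa using this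
  · intro h
    ext s
    simpa using h s.1 s.2

/-- The box. -/
def box (n : ℕ) : Finset (ℕ × ℕ) := Finset.range n ×ˢ Finset.range n

lemma mem_box {n : ℕ} {s : ℕ × ℕ} : s ∈ box n ↔ s.1 < n ∧ s.2 < n := by
  simp [box]

/-- The triangle. -/
def tri (N : ℕ) : Finset (ℕ × ℕ) :=
  (Finset.range N).biUnion Finset.HasAntidiagonal.antidiagonal

lemma mem_tri {N : ℕ} {s : ℕ × ℕ} : s ∈ tri N ↔ s.1 + s.2 < N := by
  simp [tri]

lemma card_tri (N : ℕ) : 2 * (tri N).card = N * (N + 1) := by
  have h : (tri N).card = ∑ i ∈ Finset.range N, (i + 1) := by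
    rw [tri, Finset.card_biUnion]
    · simp
    · intro i _ j _ hij
      rw [Function.onFun, Finset.disjoint_left]
      intro s hs hs'
      rw [Finset.HasAntidiagonal.mem_antidiagonal] at hs hs'
      exact hij (hs.symm.trans hs')
  rw [h]
  clear h
  induction N with
  | zero => simp
  | succ N ih =>
    rw [Finset.sum_range_succ, mul_add, ih]
    ring

/-- Order at least `N` at the origin. -/
def Ord (N : ℕ) (f : MvPolynomial (Fin 2) k) : Prop := ∀ m, coeff m f ≠ 0 → N ≤ m 0 + m 1

lemma Ord.mul {a b : ℕ} {f g : MvPolynomial (Fin 2) k} (hf : Ord a f) (hg : Ord b g) :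
    Ord (a + b) (f * g) := by
  classical
  intro m hm
  rw [coeff_mul] at hm
  obtain ⟨⟨m₁, m₂⟩, h1, h2⟩ := Finset.exists_ne_zero_of_sum_ne_zero hm
  rw [Finset.HasAntidiagonal.mem_antidiagonal] at h1
  simp only at h1 h2
  have h3 := hf m₁ (left_ne_zero_of_mul h2)
  have h4 := hg m₂ (right_ne_zero_of_mul h2)
  rw [← h1, Finsupp.add_apply, Finsupp.add_apply]
  omega

lemma Ord.mono {a b : ℕ} (h : b ≤ a) {f : MvPolynomial (Fin 2) k} (hf : Ord a f) : Ord b f :=
  fun m hm => h.trans (hf m hm)

lemma ord_of_ker_tau {N : ℕ} {f : MvPolynomial (Fin 2) k}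
    (h : f ∈ LinearMap.ker (tau k (tri N))) : Ord N f := by
  intro m hm
  by_contra hcon
  push Not at hcon
  rw [mem_ker_tau] at h
  have := h (m 0, m 1) (mem_tri.2 hcon)
  rw [ex_eta] at this
  exact hm this

lemma ker_tau_of_ord {N : ℕ} {f : MvPolynomial (Fin 2) k} (h : Ord N f) :
    f ∈ LinearMap.ker (tau k (tri N)) := by
  rw [mem_ker_tau]
  intro s hs
  by_contra hcon
  have := h _ hcon
  rw [mem_tri] at hs
  simp at this
  omega

lemma ord_of_isHomogeneous {n : ℕ} {f : MvPolynomial (Fin 2) k} (h : f.IsHomogeneous n) :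
    Ord n f := by
  intro m hm
  have := h hm
  rw [← degree_fin2, Finsupp.degree_eq_weight_one]
  exact this.ge

/-- The ideal `(x^n, y^n)`. -/
lemma mem_box_ideal {n : ℕ} {f : MvPolynomial (Fin 2) k} :
    f ∈ Ideal.span {(X 0 : MvPolynomial (Fin 2) k) ^ n, X 1 ^ n} ↔
      f ∈ LinearMap.ker (tau k (box n)) := by
  classical
  rw [mem_ker_tau]
  constructor
  · intro h s hs
    obtain ⟨P, Q, rfl⟩ := Ideal.mem_span_pair.1 h
    rw [mem_box] at hs
    rw [X_pow_eq_monomial, X_pow_eq_monomial, coeff_add, coeff_mul_monomial', coeff_mul_monomial',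
      if_neg, if_neg, add_zero]
    · intro h
      have := h 1
      simp at this
      omega
    · intro h
      have := h 0
      simp at this
      omega
  · intro h
    rw [f.as_sum]
    refine Ideal.sum_mem _ fun m hm => ?_
    by_cases h0 : n ≤ m 0
    · have hle : Finsupp.single 0 n ≤ m := by
        rw [Finsupp.single_le_iff]
        exact h0
      obtain ⟨r, hr⟩ := exists_add_of_le hle
      have : monomial m (coeff m f) = monomial r (coeff m f) * X 0 ^ n := by
        rw [X_pow_eq_monomial, monomial_mul, mul_one, add_comm r, ← hr]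
      rw [this]
      exact Ideal.mul_mem_left _ _ (Ideal.subset_span (by simp))
    · by_cases h1 : n ≤ m 1
      · have hle : Finsupp.single 1 n ≤ m := by
          rw [Finsupp.single_le_iff]
          exact h1
        obtain ⟨r, hr⟩ := exists_add_of_le hle
        have : monomial m (coeff m f) = monomial r (coeff m f) * X 1 ^ n := by
          rw [X_pow_eq_monomial, monomial_mul, mul_one, add_comm r, ← hr]
        rw [this]
        exact Ideal.mul_mem_left _ _ (Ideal.subset_span (by simp))
      · exfalso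
        have := h (m 0, m 1) (mem_box.2 ⟨by omega, by omega⟩)
        rw [ex_eta] at this
        exact (mem_support_iff.1 hm) this

end Basics

section Ranks

variable {k : Type*} [Field k]

/-- multiplication by `K`, then truncation. -/
noncomputable def TT (S : Finset (ℕ × ℕ)) (K : MvPolynomial (Fin 2) k) :
    MvPolynomial (Fin 2) k →ₗ[k] (S → k) :=
  tau k S ∘ₗ LinearMap.mulLeft k K

lemma TT_apply (S : Finset (ℕ × ℕ)) (K f : MvPolynomial (Fin 2) k) :
    TT S K f = tau k S (K * f) := rfl

/-- The colength of `(x^n, y^n, K)` is `n^2` minus the rank of multiplication by `K`. -/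
lemma colength_add_rank (n : ℕ) (K : MvPolynomial (Fin 2) k) :
    Module.finrank k (MvPolynomial (Fin 2) k ⧸
        (Ideal.span {(X 0 : MvPolynomial (Fin 2) k) ^ n, X 1 ^ n, K})) +
      Module.finrank k (LinearMap.range (TT (box n) K)) = n ^ 2 ∧
      FiniteDimensional k (MvPolynomial (Fin 2) k ⧸
        (Ideal.span {(X 0 : MvPolynomial (Fin 2) k) ^ n, X 1 ^ n, K})) := by
  set J := Ideal.span {(X 0 : MvPolynomial (Fin 2) k) ^ n, X 1 ^ n, K} with hJ
  have hle : Ideal.span {(X 0 : MvPolynomial (Fin 2) k) ^ n, X 1 ^ n} ≤ J := by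
    apply Ideal.span_mono
    intro a ha
    rcases ha with rfl | rfl
    · simp
    · simp
  have hker : LinearMap.ker (Ideal.Quotient.mkₐ k J).toLinearMap = J.restrictScalars k := by
    ext f
    rw [LinearMap.mem_ker, AlgHom.toLinearMap_apply, Ideal.Quotient.mkₐ_eq_mk,
      Ideal.Quotient.eq_zero_iff_mem]
    rfl
  have h := finrank_add_finrank_map_ker (tau k (box n)) (tau_surj _)
    (Ideal.Quotient.mkₐ k J).toLinearMap (Ideal.Quotient.mkₐ_surjective k J) (by
      rw [hker]
      intro f hf
      exact hle (mem_box_ideal.2 hf))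
  refine ⟨?_, h.2⟩
  have h1 := h.1
  rw [hker] at h1
  have h2 : (J.restrictScalars k).map (tau k (box n)) = LinearMap.range (TT (box n) K) := by
    ext u
    rw [Submodule.mem_map, LinearMap.mem_range]
    constructor
    · rintro ⟨f, hf, rfl⟩
      have hf' : f ∈ J := hf
      have hJ' : J = Ideal.span {(X 0 : MvPolynomial (Fin 2) k) ^ n, X 1 ^ n} ⊔
          Ideal.span {K} := by
        rw [hJ, ← Ideal.span_union]
        congr 1
        ext a
        simp
        tauto
      rw [hJ', Submodule.mem_sup] at hf'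
      obtain ⟨a, ha, b, hb, rfl⟩ := hf'
      obtain ⟨g, rfl⟩ := Ideal.mem_span_singleton'.1 hb
      refine ⟨g, ?_⟩
      rw [TT_apply, map_add, LinearMap.mem_ker.1 (mem_box_ideal.1 ha), zero_add, mul_comm]
    · rintro ⟨g, rfl⟩
      refine ⟨K * g, ?_, rfl⟩
      exact Ideal.mul_mem_right _ _ (Ideal.subset_span (by simp))
  rw [h2] at h1
  rw [h1, Module.finrank_fintype_fun_eq_card, Fintype.card_coe, box, Finset.card_product,
    Finset.card_range, sq]

/-- Lower bound for the rank. -/
lemma rank_lower {q : ℕ} (hq : 1 ≤ q) {K A₁ A₂ : MvPolynomial (Fin 2) k}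
    (h1 : Ord q A₁) (h2 : Ord q A₂)
    (hcolon : ∀ f, f * K ∈ Ideal.span {(X 0 : MvPolynomial (Fin 2) k) ^ (2 * q), X 1 ^ (2 * q)} →
      f ∈ Ideal.span {A₁, A₂}) :
    q ^ 2 ≤ Module.finrank k (LinearMap.range (TT (box (2 * q)) K)) := by
  set T := TT (box (2 * q)) K with hT
  set τ := tau k (tri (2 * q - 1)) with hτ
  set Z := (LinearMap.ker T).map τ with hZ
  -- the rank is at least the dimension of the cokernel
  have e1 : Module.finrank k ((tri (2 * q - 1) → k) ⧸ Z) ≤ Module.finrank k (LinearMap.range T) := by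
    have h := finrank_range_le_of_ker_le (T.rangeRestrict) T.surjective_rangeRestrict
      (Z.mkQ ∘ₗ τ) (by
        intro f hf
        rw [LinearMap.ker_rangeRestrict] at hf
        rw [LinearMap.mem_ker, LinearMap.comp_apply, Submodule.mkQ_apply,
          Submodule.Quotient.mk_eq_zero]
        exact ⟨f, hf, rfl⟩)
    have hs : LinearMap.range (Z.mkQ ∘ₗ τ) = ⊤ := by
      rw [LinearMap.range_eq_top]
      exact (Submodule.mkQ_surjective _).comp (tau_surj _)
    rwa [hs, finrank_top] at h
  have e2 : Module.finrank k ((tri (2 * q - 1) → k) ⧸ Z) + Module.finrank k Z =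
      (tri (2 * q - 1)).card := by
    rw [Submodule.finrank_quotient_add_finrank]
    simp
  have e3 : ∀ B : MvPolynomial (Fin 2) k, Ord q B →
      Module.finrank k (LinearMap.range (TT (tri (2 * q - 1)) B)) ≤ (tri (q - 1)).card := by
    intro B hB
    have := finrank_range_le_of_ker_le (tau k (tri (q - 1))) (tau_surj _)
      (TT (tri (2 * q - 1)) B) (by
        intro f hf
        rw [LinearMap.mem_ker, TT_apply, ← LinearMap.mem_ker]
        apply ker_tau_of_ord
        exact (hB.mul (ord_of_ker_tau hf)).mono (by omega))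
    simpa using this
  have e4 : Z ≤ LinearMap.range (TT (tri (2 * q - 1)) A₁) ⊔
      LinearMap.range (TT (tri (2 * q - 1)) A₂) := by
    rintro _ ⟨f, hf, rfl⟩
    have hf' : f * K ∈ Ideal.span {(X 0 : MvPolynomial (Fin 2) k) ^ (2 * q), X 1 ^ (2 * q)} := by
      rw [mem_box_ideal, LinearMap.mem_ker, mul_comm f K]
      exact hf
    obtain ⟨P, Q, rfl⟩ := Ideal.mem_span_pair.1 (hcolon f hf')
    rw [map_add]
    apply Submodule.add_mem_sup
    · exact ⟨P, by rw [TT_apply, mul_comm A₁ P]⟩
    · exact ⟨Q, by rw [TT_apply, mul_comm A₂ Q]⟩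
  have e5 : Module.finrank k Z ≤ (tri (q - 1)).card + (tri (q - 1)).card := by
    refine (Submodule.finrank_mono e4).trans ?_
    refine (Submodule.finrank_add_le_finrank_add_finrank _ _).trans ?_
    exact add_le_add (e3 A₁ h1) (e3 A₂ h2)
  have c1 := card_tri (2 * q - 1)
  have c2 := card_tri (q - 1)
  obtain ⟨r, rfl⟩ : ∃ r, q = r + 1 := ⟨q - 1, by omega⟩
  have hr1 : 2 * (r + 1) - 1 = 2 * r + 1 := by omega
  have hr2 : r + 1 - 1 = r := by omega
  have c1' : 2 * (tri (2 * (r + 1) - 1)).card = (2 * r + 1) * (2 * r + 1 + 1) := by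
    rw [c1, hr1]
  have c2' : 2 * (tri (r + 1 - 1)).card = r * (r + 1) := by
    rw [c2, hr2]
  nlinarith

/-- Upper bound for the rank. -/
lemma rank_upper {q ρ : ℕ} (hρ : ρ ≤ q) {K F : MvPolynomial (Fin 2) k}
    (hK : Ord (2 * q) K) (hF : F ≠ 0) (hdeg : F.totalDegree ≤ ρ)
    (hFK : F * K ∈ Ideal.span {(X 0 : MvPolynomial (Fin 2) k) ^ (2 * q), X 1 ^ (2 * q)}) :
    Module.finrank k (LinearMap.range (TT (box (2 * q)) K)) + ρ ^ 2 ≤ 2 * q * ρ := by
  classical
  set N := 2 * q - ρ with hN
  set S := (box (2 * q)).filter (fun s => s.1 + s.2 < 2 * q + N) with hS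
  set S' := (box (2 * q)).filter (fun s => ¬ s.1 + s.2 < 2 * q + N) with hS'
  -- split the rank
  have e1 : Module.finrank k (LinearMap.range (TT (box (2 * q)) K)) ≤
      Module.finrank k (LinearMap.range (TT S K)) + S'.card := by
    let g₁ : (box (2 * q) → k) →ₗ[k] (S → k) :=
      LinearMap.pi fun s => LinearMap.proj (⟨s.1, (Finset.mem_filter.1 s.2).1⟩ : box (2 * q))
    let g₂ : (box (2 * q) → k) →ₗ[k] (S' → k) :=
      LinearMap.pi fun s => LinearMap.proj (⟨s.1, (Finset.mem_filter.1 s.2).1⟩ : box (2 * q))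
    let W := LinearMap.range (TT (box (2 * q)) K)
    let G : W →ₗ[k] (LinearMap.range (TT S K)) × (S' → k) :=
      LinearMap.prod (LinearMap.codRestrict (LinearMap.range (TT S K)) (g₁ ∘ₗ W.subtype) (by
        rintro ⟨_, ⟨f, rfl⟩⟩
        exact ⟨f, rfl⟩)) (g₂ ∘ₗ W.subtype)
    have hG : Function.Injective G := by
      rw [← LinearMap.ker_eq_bot, LinearMap.ker_eq_bot']
      intro c hc
      ext s
      by_cases hs : s.1.1 + s.1.2 < 2 * q + N
      · have := congrFun (congrArg Subtype.val (congrArg Prod.fst hc))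
          ⟨s.1, Finset.mem_filter.2 ⟨s.2, hs⟩⟩
        exact this
      · have := congrFun (congrArg Prod.snd hc) ⟨s.1, Finset.mem_filter.2 ⟨s.2, hs⟩⟩
        exact this
    have h1 := LinearMap.finrank_le_finrank_of_injective hG
    rw [Module.finrank_prod, Module.finrank_fintype_fun_eq_card, Fintype.card_coe] at h1
    exact h1
  -- count `S'`
  have e2 : S'.card ≤ (tri (ρ - 1)).card := by
    apply Finset.card_le_card_of_injOn (fun s => (2 * q - 1 - s.1, 2 * q - 1 - s.2))
    · intro s hs
      rw [hS', Finset.mem_coe, Finset.mem_filter, mem_box] at hs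
      rw [Finset.mem_coe, mem_tri]
      simp only
      omega
    · intro s hs t ht hst
      rw [hS', Finset.mem_coe, Finset.mem_filter, mem_box] at hs ht
      rw [Prod.mk.injEq] at hst
      apply Prod.ext <;> omega
  -- the main part
  have e3 : Module.finrank k (LinearMap.range (TT S K)) + (tri (N - ρ)).card ≤ (tri N).card := by
    obtain ⟨θ, hθ⟩ := exists_factor (tau k (tri N)) (tau_surj _) (TT S K) (by
      intro f hf
      rw [mem_ker_tau] at hf
      rw [LinearMap.mem_ker, TT_apply, ← LinearMap.mem_ker, mem_ker_tau]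
      intro s hs
      by_contra hcon
      have := (hK.mul (ord_of_ker_tau (mem_ker_tau.2 hf))) _ hcon
      rw [hS, Finset.mem_filter] at hs
      simp at this
      omega)
    have hr : LinearMap.range θ = LinearMap.range (TT S K) := by
      rw [← hθ, LinearMap.range_comp_of_range_eq_top]
      exact LinearMap.range_eq_top.2 (tau_surj _)
    have hrk := LinearMap.finrank_range_add_finrank_ker θ
    rw [hr, Module.finrank_fintype_fun_eq_card, Fintype.card_coe] at hrk
    -- an injection into the kernel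
    let ι : (tri (N - ρ) → k) →ₗ[k] MvPolynomial (Fin 2) k :=
      ∑ s : tri (N - ρ), (MvPolynomial.monomial (ex s.1)) ∘ₗ LinearMap.proj s
    have hι : ∀ c s, coeff (ex s.1) (ι c) = c s := by
      intro c s
      simp only [ι, LinearMap.sum_apply, LinearMap.comp_apply, LinearMap.proj_apply, coeff_sum,
        coeff_monomial]
      rw [Finset.sum_eq_single s]
      · simp
      · intro b _ hb
        rw [if_neg]
        intro h
        exact hb (Subtype.ext (ex_inj h))
      · simp
    have hdι : ∀ c, ι c ≠ 0 → (ι c).totalDegree < N - ρ := by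
      intro c hc
      have hsupp : ∀ m, coeff m (ι c) ≠ 0 → m.degree < N - ρ := by
        intro m hm
        simp only [ι, LinearMap.sum_apply, LinearMap.comp_apply, LinearMap.proj_apply, coeff_sum,
          coeff_monomial] at hm
        obtain ⟨s, _, hs⟩ := Finset.exists_ne_zero_of_sum_ne_zero hm
        have : ex s.1 = m := by
          by_contra hne
          rw [if_neg hne] at hs
          exact hs rfl
        rw [← this, degree_fin2, ex_zero, ex_one]
        exact mem_tri.1 s.2
      obtain ⟨m₀, hm₀⟩ := exists_coeff_ne_zero hc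
      have hpos : ⊥ < N - ρ := lt_of_le_of_lt (Nat.zero_le _) (hsupp m₀ hm₀)
      rw [totalDegree, Finset.sup_lt_iff hpos]
      intro m hm
      exact hsupp m (mem_support_iff.1 hm)
    let j : (tri (N - ρ) → k) →ₗ[k] LinearMap.ker θ :=
      LinearMap.codRestrict (LinearMap.ker θ) (TT (tri N) F ∘ₗ ι) (by
        intro c
        rw [LinearMap.mem_ker]
        have : θ ((TT (tri N) F ∘ₗ ι) c) = TT S K (F * ι c) := by
          rw [← hθ]
          rfl
        rw [this, TT_apply, ← LinearMap.mem_ker, mem_ker_tau]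
        intro s hs
        have h1 : F * ι c * K ∈
            Ideal.span {(X 0 : MvPolynomial (Fin 2) k) ^ (2 * q), X 1 ^ (2 * q)} := by
          have : F * ι c * K = ι c * (F * K) := by ring
          rw [this]
          exact Ideal.mul_mem_left _ _ hFK
        rw [mem_box_ideal, mem_ker_tau] at h1
        rw [mul_comm]
        exact h1 s (Finset.mem_filter.1 hs).1)
    have hj : Function.Injective j := by
      rw [← LinearMap.ker_eq_bot, LinearMap.ker_eq_bot']
      intro c hc
      have h1 : tau k (tri N) (F * ι c) = 0 := congrArg Subtype.val hc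
      have h2 : ι c = 0 := by
        by_contra hne
        have h3 : F * ι c ≠ 0 := mul_ne_zero hF hne
        obtain ⟨m, hm⟩ := exists_coeff_ne_zero h3
        have h4 : m.degree ≤ (F * ι c).totalDegree := le_totalDegree (mem_support_iff.2 hm)
        have h5 := totalDegree_mul F (ι c)
        have h6 := hdι c hne
        rw [degree_fin2] at h4
        have h7 := (mem_ker_tau.1 (LinearMap.mem_ker.2 h1)) (m 0, m 1) (mem_tri.2 (by
          simp only
          omega))
        rw [ex_eta] at h7
        exact hm h7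
      ext s
      rw [← hι c s, h2]
      simp
    have h1 := LinearMap.finrank_le_finrank_of_injective hj
    rw [Module.finrank_fintype_fun_eq_card, Fintype.card_coe] at h1
    omega
  have c1 := card_tri N
  have c2 := card_tri (N - ρ)
  have c3 := card_tri (ρ - 1)
  obtain ⟨t, rfl⟩ : ∃ t, q = ρ + t := ⟨q - ρ, by omega⟩
  have hN1 : N = ρ + 2 * t := by omega
  have hN2 : N - ρ = 2 * t := by omega
  rw [hN2] at c2 e3
  rw [hN1] at c1 e3
  rcases Nat.eq_zero_or_pos ρ with h0 | h0
  · have h3 : (tri (ρ - 1)).card = 0 := by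
      rw [h0] at c3 ⊢
      simpa using c3
    have h4 : (tri (ρ + 2 * t)).card = (tri (2 * t)).card := by
      have : ρ + 2 * t = 2 * t := by omega
      rw [this]
    rw [h4] at e3
    have h5 : ρ ^ 2 = 0 := by rw [h0]; rfl
    have h6 : 2 * (ρ + t) * ρ = 0 := by rw [h0, mul_zero]
    rw [h5, h6]
    omega
  · obtain ⟨v, rfl⟩ : ∃ v, ρ = v + 1 := ⟨ρ - 1, by omega⟩
    rw [Nat.add_sub_cancel] at c3 e2
    nlinarith

end Ranks

end Pool.Agent.H956R2.HK
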