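import Mathlib
import Pool.Agent.H956R2.HK.Dim

set_option autoImplicit false

namespace Pool.Agent.H956R2.HK

open MvPolynomial

section Frob

variable {k : Type*} [Field k] [Finite k] {p : ℕ} [Fact p.Prime] [CharP k p]

/-- the additive decomposition map -/
noncomputable def Theta (u : ℕ) (g : box u → MvPolynomial (Fin 2) k) : MvPolynomial (Fin 2) k :=
  ∑ s : box u, monomial (ex s.1) (1 : k) * (g s) ^ u

omit [Finite k] in
lemma coeff_pow_smul (j : ℕ) (f : MvPolynomial (Fin 2) k) (m : Fin 2 →₀ ℕ) :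
    coeff (p ^ j • m) (f ^ (p ^ j)) = (coeff m f) ^ (p ^ j) := by
  rw [← MvPolynomial.map_iterateFrobenius_expand (p := p), coeff_map, coeff_expand_smul,
    iterateFrobenius_def]
  exact pow_ne_zero _ (Fact.out : p.Prime).ne_zero

omit [Finite k] in
lemma coeff_pow_of_not_dvd (j : ℕ) (f : MvPolynomial (Fin 2) k) (m : Fin 2 →₀ ℕ) {i : Fin 2}
    (h : ¬ p ^ j ∣ m i) : coeff m (f ^ (p ^ j)) = 0 := by
  rw [← MvPolynomial.map_iterateFrobenius_expand (p := p), coeff_map, coeff_expand_of_not_dvd _ h,
    map_zero]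

omit [Finite k] in
lemma coeff_Theta (j : ℕ) (g : box (p ^ j) → MvPolynomial (Fin 2) k) (m : ℕ × ℕ)
    (s : box (p ^ j)) :
    coeff (ex (p ^ j * m.1 + s.1.1, p ^ j * m.2 + s.1.2)) (Theta (p ^ j) g) =
      (coeff (ex m) (g s)) ^ (p ^ j) := by
  classical
  have hs := mem_box.1 s.2
  rw [Theta, coeff_sum, Finset.sum_eq_single s]
  · have h1 : ex (p ^ j * m.1 + s.1.1, p ^ j * m.2 + s.1.2) = ex s.1 + p ^ j • ex m := by
      ext i
      fin_cases i
      · simp [add_comm]
      · simp [add_comm]
    rw [h1, coeff_monomial_mul, one_mul, coeff_pow_smul]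
  · intro t _ ht
    have ht' := mem_box.1 t.2
    rw [coeff_monomial_mul', one_mul]
    split_ifs with hle
    · by_cases h0 : t.1.1 = s.1.1
      · have h1 : t.1.2 ≠ s.1.2 := by
          intro h
          exact ht (Subtype.ext (Prod.ext h0 h))
        apply coeff_pow_of_not_dvd (i := 1)
        rw [Finsupp.tsub_apply, ex_one, ex_one]
        intro hd
        simp only at hd
        have hle1 := hle 1
        rw [ex_one, ex_one] at hle1
        simp only at hle1
        have h2 : p ^ j * m.2 + s.1.2 ≡ t.1.2 [MOD p ^ j] :=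
          ((Nat.modEq_iff_dvd' hle1).2 hd).symm
        have h3 : s.1.2 ≡ t.1.2 [MOD p ^ j] := by
          refine Nat.ModEq.trans ?_ h2
          unfold Nat.ModEq
          rw [Nat.mul_add_mod]
        exact h1 (Nat.ModEq.eq_of_lt_of_lt h3 hs.2 ht'.2).symm
      · apply coeff_pow_of_not_dvd (i := 0)
        rw [Finsupp.tsub_apply, ex_zero, ex_zero]
        intro hd
        simp only at hd
        have hle1 := hle 0
        rw [ex_zero, ex_zero] at hle1
        simp only at hle1
        have h2 : p ^ j * m.1 + s.1.1 ≡ t.1.1 [MOD p ^ j] :=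
          ((Nat.modEq_iff_dvd' hle1).2 hd).symm
        have h3 : s.1.1 ≡ t.1.1 [MOD p ^ j] := by
          refine Nat.ModEq.trans ?_ h2
          unfold Nat.ModEq
          rw [Nat.mul_add_mod]
        exact h0 (Nat.ModEq.eq_of_lt_of_lt h3 hs.1 ht'.1).symm
    · rfl
  · simp

omit [Finite k] in
lemma Theta_add (j : ℕ) (g h : box (p ^ j) → MvPolynomial (Fin 2) k) :
    Theta (p ^ j) (g + h) = Theta (p ^ j) g + Theta (p ^ j) h := by
  have : CharP (MvPolynomial (Fin 2) k) p := inferInstance
  simp only [Theta, Pi.add_apply, add_pow_char_pow, mul_add, Finset.sum_add_distrib]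

omit [Finite k] [CharP k p] in
lemma Theta_zero (j : ℕ) : Theta (k := k) (p ^ j) 0 = 0 := by
  simp only [Theta, Pi.zero_apply]
  apply Finset.sum_eq_zero
  intro s _
  rw [zero_pow (pow_ne_zero _ (Fact.out : p.Prime).ne_zero), mul_zero]

variable (k p) in
/-- additive version -/
noncomputable def ThetaHom (j : ℕ) :
    (box (p ^ j) → MvPolynomial (Fin 2) k) →+ MvPolynomial (Fin 2) k where
  toFun := Theta (p ^ j)
  map_zero' := Theta_zero j
  map_add' := Theta_add j

omit [Finite k] in
lemma ThetaHom_injective (j : ℕ) : Function.Injective (ThetaHom k p j) := by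
  rw [injective_iff_map_eq_zero]
  intro g hg
  ext s m
  have h := coeff_Theta (p := p) j g (m 0, m 1) s
  have hg' : Theta (p ^ j) g = 0 := hg
  rw [hg', coeff_zero, ex_eta] at h
  simpa using (pow_eq_zero_iff (pow_ne_zero _ (Fact.out : p.Prime).ne_zero)).1 h.symm

lemma pow_bij (j : ℕ) : Function.Bijective (fun x : k => x ^ (p ^ j)) := by
  have h : Function.Injective (iterateFrobenius k p j) := iterateFrobenius_inj k p j
  exact Finite.injective_iff_bijective.1 h

lemma ThetaHom_surjective (j : ℕ) : Function.Surjective (ThetaHom k p j) := by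
  classical
  have hp : 0 < p ^ j := pow_pos (Fact.out : p.Prime).pos _
  rw [← AddMonoidHom.range_eq_top]
  rw [eq_top_iff]
  intro f _
  rw [f.as_sum]
  refine AddSubgroup.sum_mem _ fun m _ => ?_
  obtain ⟨c, hc⟩ := (pow_bij (k := k) (p := p) j).2 (coeff m f)
  simp only at hc
  rw [← hc]
  let s : box (p ^ j) := ⟨(m 0 % p ^ j, m 1 % p ^ j), mem_box.2 ⟨Nat.mod_lt _ hp, Nat.mod_lt _ hp⟩⟩
  refine ⟨Pi.single s (monomial (ex (m 0 / p ^ j, m 1 / p ^ j)) c), ?_⟩
  change Theta (p ^ j) _ = _
  rw [Theta, Finset.sum_eq_single s]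
  · have hm : ex s.1 + p ^ j • ex (m 0 / p ^ j, m 1 / p ^ j) = m := by
      ext i
      fin_cases i
      · simp [s, Nat.mod_add_div]
      · simp [s, Nat.mod_add_div]
    rw [Pi.single_eq_same, monomial_pow, monomial_mul, one_mul, hm]
  · intro t _ ht
    rw [Pi.single_eq_of_ne ht, zero_pow hp.ne', mul_zero]
  · simp

lemma mem_frob_iff (j : ℕ) (G : Set (MvPolynomial (Fin 2) k))
    (g : box (p ^ j) → MvPolynomial (Fin 2) k) :
    ThetaHom k p j g ∈ Ideal.span ((fun x => x ^ (p ^ j)) '' G) ↔ ∀ s, g s ∈ Ideal.span G := by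
  classical
  have : CharP (MvPolynomial (Fin 2) k) p := inferInstance
  have hp : 0 < p ^ j := pow_pos (Fact.out : p.Prime).pos _
  set J' := Ideal.span ((fun x : MvPolynomial (Fin 2) k => x ^ (p ^ j)) '' G) with hJ'
  have hpow : ∀ f ∈ Ideal.span G, f ^ (p ^ j) ∈ J' := by
    intro f hf
    induction hf using Submodule.span_induction with
    | mem x hx => exact Ideal.subset_span ⟨x, hx, rfl⟩
    | zero =>
      rw [zero_pow hp.ne']
      exact Ideal.zero_mem _
    | add x y _ _ hx hy =>
      rw [add_pow_char_pow]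
      exact Ideal.add_mem _ hx hy
    | smul a x _ hx =>
      rw [smul_eq_mul, mul_pow]
      exact Ideal.mul_mem_left _ _ hx
  constructor
  · intro h
    -- every element of `J'` is the image of a `J`-valued function
    have key : ∀ h ∈ J', ∃ g : box (p ^ j) → MvPolynomial (Fin 2) k,
        (∀ s, g s ∈ Ideal.span G) ∧ ThetaHom k p j g = h := by
      have hmul : ∀ (b f : MvPolynomial (Fin 2) k) (β : box (p ^ j) → MvPolynomial (Fin 2) k),
          ThetaHom k p j β = b → ThetaHom k p j (fun s => β s * f) = b * f ^ (p ^ j) := by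
        rintro b f β rfl
        change Theta (p ^ j) _ = Theta (p ^ j) _ * _
        simp only [Theta, Finset.sum_mul, mul_pow]
        refine Finset.sum_congr rfl fun s _ => ?_
        ring
      intro h hh
      induction hh using Submodule.span_induction with
      | mem x hx =>
        obtain ⟨y, hy, rfl⟩ := hx
        obtain ⟨β, hβ⟩ := ThetaHom_surjective (k := k) (p := p) j 1
        refine ⟨fun s => β s * y, fun s => Ideal.mul_mem_left _ _ (Ideal.subset_span hy), ?_⟩
        rw [hmul 1 y β hβ, one_mul]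
      | zero => exact ⟨0, fun s => Ideal.zero_mem _, map_zero _⟩
      | add x y _ _ hx hy =>
        obtain ⟨g₁, h1, rfl⟩ := hx
        obtain ⟨g₂, h2, rfl⟩ := hy
        exact ⟨g₁ + g₂, fun s => Ideal.add_mem _ (h1 s) (h2 s), map_add _ _ _⟩
      | smul a x _ hx =>
        obtain ⟨g₁, h1, rfl⟩ := hx
        choose β hβ using fun s : box (p ^ j) =>
          ThetaHom_surjective (k := k) (p := p) j (a * monomial (ex s.1) 1)
        refine ⟨∑ s, fun t => β s t * g₁ s, ?_, ?_⟩
        · intro t
          rw [Finset.sum_apply]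
          exact Ideal.sum_mem _ fun s _ => Ideal.mul_mem_left _ _ (h1 s)
        · rw [map_sum]
          have : ∀ s, ThetaHom k p j (fun t => β s t * g₁ s) =
              a * monomial (ex s.1) 1 * g₁ s ^ (p ^ j) := fun s => hmul _ _ _ (hβ s)
          simp only [this]
          change _ = a • Theta (p ^ j) _
          rw [Theta, smul_eq_mul, Finset.mul_sum]
          refine Finset.sum_congr rfl fun s _ => ?_
          ring
    obtain ⟨g', h1, h2⟩ := key _ h
    rw [← ThetaHom_injective j h2]
    exact h1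
  · intro h
    change Theta (p ^ j) g ∈ J'
    rw [Theta]
    exact Ideal.sum_mem _ fun s _ => Ideal.mul_mem_left _ _ (hpow _ (h s))

/-- Frobenius multiplies colengths by `u^2`. -/
lemma finrank_frob (j : ℕ) (G : Set (MvPolynomial (Fin 2) k))
    [FiniteDimensional k (MvPolynomial (Fin 2) k ⧸ Ideal.span G)] :
    Module.finrank k (MvPolynomial (Fin 2) k ⧸
      Ideal.span ((fun x : MvPolynomial (Fin 2) k => x ^ (p ^ j)) '' G)) =
      (p ^ j) ^ 2 * Module.finrank k (MvPolynomial (Fin 2) k ⧸ Ideal.span G) := by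
  classical
  have : CharP (MvPolynomial (Fin 2) k) p := inferInstance
  set J' := Ideal.span ((fun x : MvPolynomial (Fin 2) k => x ^ (p ^ j)) '' G) with hJ'
  set J := Ideal.span G with hJ
  let φ₁ : (box (p ^ j) → MvPolynomial (Fin 2) k) →+ (box (p ^ j) → MvPolynomial (Fin 2) k ⧸ J) :=
    AddMonoidHom.compLeft (Ideal.Quotient.mk J).toAddMonoidHom _
  let φ₂ : (box (p ^ j) → MvPolynomial (Fin 2) k) →+ (MvPolynomial (Fin 2) k ⧸ J') :=
    (Ideal.Quotient.mk J').toAddMonoidHom.comp (ThetaHom k p j)
  have h1 : Function.Surjective φ₁ := by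
    intro c
    choose g hg using fun s => Ideal.Quotient.mk_surjective (c s)
    exact ⟨g, funext hg⟩
  have h2 : Function.Surjective φ₂ :=
    Ideal.Quotient.mk_surjective.comp (ThetaHom_surjective j)
  have h3 : ∀ g, φ₁ g = 0 ↔ φ₂ g = 0 := by
    intro g
    have e2 : φ₂ g = 0 ↔ ThetaHom k p j g ∈ J' := Ideal.Quotient.eq_zero_iff_mem
    rw [e2, hJ', mem_frob_iff]
    constructor
    · intro h s
      have := congrFun h s
      exact Ideal.Quotient.eq_zero_iff_mem.1 this
    · intro h
      ext s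
      exact Ideal.Quotient.eq_zero_iff_mem.2 (h s)
  have h4 : φ₁.ker = φ₂.ker := by
    ext g
    exact h3 g
  let e : (box (p ^ j) → MvPolynomial (Fin 2) k ⧸ J) ≃+ (MvPolynomial (Fin 2) k ⧸ J') :=
    (QuotientAddGroup.quotientKerEquivOfSurjective φ₁ h1).symm.trans
      ((QuotientAddGroup.quotientAddEquivOfEq h4).trans
        (QuotientAddGroup.quotientKerEquivOfSurjective φ₂ h2))
  have he : ∀ g, e (φ₁ g) = φ₂ g := by
    intro g
    have : (QuotientAddGroup.quotientKerEquivOfSurjective φ₁ h1).symm (φ₁ g) =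
        (QuotientAddGroup.mk g : _ ⧸ φ₁.ker) := by
      rw [AddEquiv.symm_apply_eq]
      rfl
    simp only [e, AddEquiv.trans_apply, this]
    rfl
  have hsemi : ∀ (r : k) (m : box (p ^ j) → MvPolynomial (Fin 2) k ⧸ J),
      e (r • m) = (r ^ (p ^ j)) • e m := by
    intro r m
    obtain ⟨g, rfl⟩ := h1 m
    have hr : r • φ₁ g = φ₁ (fun s => C r * g s) := by
      ext s
      change r • (Ideal.Quotient.mk J (g s)) = Ideal.Quotient.mk J (C r * g s)
      rw [← MvPolynomial.smul_eq_C_mul]
      rfl
    rw [hr, he, he]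
    change Ideal.Quotient.mk J' (Theta (p ^ j) _) = r ^ (p ^ j) • Ideal.Quotient.mk J' _
    have : Theta (p ^ j) (fun s => C r * g s) = C (r ^ (p ^ j)) * Theta (p ^ j) g := by
      simp only [Theta, Finset.mul_sum, mul_pow, map_pow]
      refine Finset.sum_congr rfl fun s _ => ?_
      ring
    rw [this, ← MvPolynomial.smul_eq_C_mul]
    rfl
  have hrank := rank_eq_of_equiv_equiv (fun x : k => x ^ (p ^ j)) e (pow_bij j) hsemi
  have : Module.finrank k (MvPolynomial (Fin 2) k ⧸ J') =
      Module.finrank k (box (p ^ j) → MvPolynomial (Fin 2) k ⧸ J) := by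
    rw [Module.finrank, Module.finrank, hrank]
  rw [this, Module.finrank_pi_fintype, Finset.sum_const, Finset.card_univ, Fintype.card_coe, box,
    Finset.card_product, Finset.card_range, smul_eq_mul, sq]

end Frob

end Pool.Agent.H956R2.HK
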