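import Mathlib
import Pool.Agent.H956R2.HK.Frob

set_option autoImplicit false

namespace Pool.Agent.H956R2.HK

open MvPolynomial

section Compare

variable {k B : Type*} [Field k] [CommRing B] [Algebra k B]

lemma ker_mk (J : Ideal B) :
    LinearMap.ker (Ideal.Quotient.mkₐ k J).toLinearMap = J.restrictScalars k := by
  ext f
  rw [LinearMap.mem_ker, AlgHom.toLinearMap_apply, Ideal.Quotient.mkₐ_eq_mk,
    Ideal.Quotient.eq_zero_iff_mem]
  rfl

lemma mem_ker_mk {J : Ideal B} {b : B} :
    b ∈ LinearMap.ker (Ideal.Quotient.mkₐ k J).toLinearMap ↔ b ∈ J := by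
  rw [ker_mk]
  rfl

lemma finite_quot_of_le {J J' : Ideal B} (h : J ≤ J') [FiniteDimensional k (B ⧸ J)] :
    FiniteDimensional k (B ⧸ J') :=
  Module.Finite.of_surjective (Ideal.Quotient.factorₐ k h).toLinearMap
    (Ideal.Quotient.factor_surjective h)

lemma finrank_quot_le_of_le {J J' : Ideal B} (h : J ≤ J') [FiniteDimensional k (B ⧸ J)] :
    Module.finrank k (B ⧸ J') ≤ Module.finrank k (B ⧸ J) :=
  LinearMap.finrank_le_finrank_of_surjective (f := (Ideal.Quotient.factorₐ k h).toLinearMap)
    (Ideal.Quotient.factor_surjective h)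

lemma finrank_mul_le (I₀ : Ideal B) [FiniteDimensional k (B ⧸ I₀)] (h t : B) :
    Module.finrank k (B ⧸ (I₀ ⊔ Ideal.span {t * h})) ≤
      Module.finrank k (B ⧸ (I₀ ⊔ Ideal.span {h})) +
        Module.finrank k (B ⧸ (I₀ ⊔ Ideal.span {t})) := by
  have f1 : FiniteDimensional k (B ⧸ (I₀ ⊔ Ideal.span {t * h})) := finite_quot_of_le le_sup_left
  have f2 : FiniteDimensional k (B ⧸ (I₀ ⊔ Ideal.span {h})) := finite_quot_of_le le_sup_left
  have f3 : FiniteDimensional k (B ⧸ (I₀ ⊔ Ideal.span {t})) := finite_quot_of_le le_sup_left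
  have hle : I₀ ⊔ Ideal.span {t * h} ≤ I₀ ⊔ Ideal.span {h} := by
    refine sup_le le_sup_left ?_
    rw [Ideal.span_singleton_le_iff_mem]
    exact Ideal.mul_mem_left _ _ (Ideal.mem_sup_right (Ideal.mem_span_singleton_self h))
  let φ := (Ideal.Quotient.factorₐ k hle).toLinearMap
  have hφ : Function.Surjective φ := Ideal.Quotient.factor_surjective hle
  have h1 := LinearMap.finrank_range_add_finrank_ker φ
  rw [LinearMap.range_eq_top.2 hφ, finrank_top] at h1
  let μ : B →ₗ[k] (B ⧸ (I₀ ⊔ Ideal.span {t * h})) :=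
    (Ideal.Quotient.mkₐ k (I₀ ⊔ Ideal.span {t * h})).toLinearMap ∘ₗ LinearMap.mulLeft k h
  have h2 : LinearMap.ker φ ≤ LinearMap.range μ := by
    intro m hm
    obtain ⟨b, rfl⟩ := Ideal.Quotient.mk_surjective m
    have hb : b ∈ I₀ ⊔ Ideal.span {h} := by
      rw [← Ideal.Quotient.eq_zero_iff_mem]
      exact hm
    obtain ⟨a, ha, c, hc, rfl⟩ := Submodule.mem_sup.1 hb
    obtain ⟨d, rfl⟩ := Ideal.mem_span_singleton'.1 hc
    refine ⟨d, ?_⟩
    change Ideal.Quotient.mk _ (h * d) = Ideal.Quotient.mk _ (a + d * h)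
    rw [Ideal.Quotient.eq]
    have : h * d - (a + d * h) = -a := by ring
    rw [this]
    exact Ideal.mem_sup_left (I₀.neg_mem ha)
  have h3 := finrank_range_le_of_ker_le
    (Ideal.Quotient.mkₐ k (I₀ ⊔ Ideal.span {t})).toLinearMap
    (Ideal.Quotient.mkₐ_surjective k _) μ (by
      intro b hb
      rw [mem_ker_mk] at hb
      obtain ⟨a, ha, c, hc, rfl⟩ := Submodule.mem_sup.1 hb
      obtain ⟨d, rfl⟩ := Ideal.mem_span_singleton'.1 hc
      change Ideal.Quotient.mk _ (h * (a + d * t)) = 0
      rw [Ideal.Quotient.eq_zero_iff_mem]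
      have : h * (a + d * t) = h * a + d * (t * h) := by ring
      rw [this]
      exact Submodule.add_mem_sup (Ideal.mul_mem_left _ _ ha)
        (Ideal.mul_mem_left _ _ (Ideal.mem_span_singleton_self _)))
  have h4 := Submodule.finrank_mono h2
  omega

lemma compare (I₀ : Ideal B) [FiniteDimensional k (B ⧸ I₀)] (g h t : B)
    (hth : t * g - t * h ∈ I₀) :
    Module.finrank k (B ⧸ (I₀ ⊔ Ideal.span {g})) ≤
      Module.finrank k (B ⧸ (I₀ ⊔ Ideal.span {h})) +
        Module.finrank k (B ⧸ (I₀ ⊔ Ideal.span {t})) := by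
  have f1 : FiniteDimensional k (B ⧸ (I₀ ⊔ Ideal.span {t * h})) := finite_quot_of_le le_sup_left
  refine le_trans (finrank_quot_le_of_le (J := I₀ ⊔ Ideal.span {t * h}) ?_) (finrank_mul_le I₀ h t)
  refine sup_le le_sup_left ?_
  rw [Ideal.span_singleton_le_iff_mem]
  have : t * h = - (t * g - t * h) + t * g := by ring
  rw [this]
  exact Submodule.add_mem_sup (I₀.neg_mem hth)
    (Ideal.mul_mem_left _ _ (Ideal.mem_span_singleton_self _))

end Compare

section Monomials

variable {k : Type*} [Field k]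

lemma finrank_le_card_of_monomials (J : Ideal (MvPolynomial (Fin 2) k)) (S : Finset (ℕ × ℕ))
    (h : ∀ s, s ∉ S → monomial (ex s) (1 : k) ∈ J) :
    Module.finrank k (MvPolynomial (Fin 2) k ⧸ J) ≤ S.card ∧
      FiniteDimensional k (MvPolynomial (Fin 2) k ⧸ J) := by
  have h1 := finrank_add_finrank_map_ker (tau k S) (tau_surj _)
    (Ideal.Quotient.mkₐ k J).toLinearMap (Ideal.Quotient.mkₐ_surjective k J) (by
      intro f hf
      rw [mem_ker_mk]
      rw [mem_ker_tau] at hf
      rw [f.as_sum]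
      refine Ideal.sum_mem _ fun m hm => ?_
      have hm' : (m 0, m 1) ∉ S := by
        intro hS
        have := hf _ hS
        rw [ex_eta] at this
        exact (mem_support_iff.1 hm) this
      have := h _ hm'
      rw [ex_eta] at this
      have e : monomial m (coeff m f) = C (coeff m f) * monomial m 1 := by
        rw [C_mul_monomial, mul_one]
      rw [e]
      exact Ideal.mul_mem_left _ _ this)
  refine ⟨?_, h1.2⟩
  have := h1.1
  rw [Module.finrank_fintype_fun_eq_card, Fintype.card_coe] at this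
  omega

lemma span_triple (x y z : MvPolynomial (Fin 2) k) :
    Ideal.span {x, y, z} = Ideal.span {x, y} ⊔ Ideal.span {z} := by
  rw [← Ideal.span_union]
  congr 1
  ext a
  simp
  tauto

lemma finite_box (n : ℕ) : FiniteDimensional k
    (MvPolynomial (Fin 2) k ⧸ Ideal.span {(X 0 : MvPolynomial (Fin 2) k) ^ n, X 1 ^ n}) := by
  refine (finrank_le_card_of_monomials _ (box n) fun s hs => ?_).2
  rw [mem_box_ideal, mem_ker_tau]
  intro t ht
  rw [coeff_monomial, if_neg]
  intro h
  rw [ex_inj h] at hs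
  exact hs ht

lemma finrank_cross_le (n u : ℕ) :
    Module.finrank k (MvPolynomial (Fin 2) k ⧸
      (Ideal.span {(X 0 : MvPolynomial (Fin 2) k) ^ n, X 1 ^ n} ⊔
        Ideal.span {((X 0 : MvPolynomial (Fin 2) k) * X 1) ^ u})) ≤ 2 * n * u := by
  classical
  set S : Finset (ℕ × ℕ) := (Finset.range u ×ˢ Finset.range n) ∪ (Finset.range n ×ˢ Finset.range u)
    with hS
  have hc : S.card ≤ 2 * n * u := by
    refine (Finset.card_union_le _ _).trans ?_
    rw [Finset.card_product, Finset.card_product, Finset.card_range, Finset.card_range]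
    nlinarith
  refine (finrank_le_card_of_monomials _ S fun s hs => ?_).1.trans hc
  by_cases hb : s ∈ box n
  · rw [mem_box] at hb
    simp only [hS, Finset.mem_union, Finset.mem_product, Finset.mem_range, not_or, not_and] at hs
    have h1 : u ≤ s.1 := by
      by_contra hcon
      exact hs.1 (by omega) hb.2
    have h2 : u ≤ s.2 := by
      by_contra hcon
      exact hs.2 hb.1 (by omega)
    apply Ideal.mem_sup_right
    rw [Ideal.mem_span_singleton']
    refine ⟨monomial (ex (s.1 - u, s.2 - u)) 1, ?_⟩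
    have he : ex (s.1 - u, s.2 - u) + (Finsupp.single 0 u + Finsupp.single 1 u) = ex s := by
      ext i
      fin_cases i
      · simp
        omega
      · simp
        omega
    rw [mul_pow, X_pow_eq_monomial, X_pow_eq_monomial, monomial_mul, monomial_mul, one_mul, one_mul,
      he]
  · apply Ideal.mem_sup_left
    rw [mem_box_ideal, mem_ker_tau]
    intro t ht
    rw [coeff_monomial, if_neg]
    intro h
    rw [ex_inj h] at hb
    exact hb ht

end Monomials

end Pool.Agent.H956R2.HK
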