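import Mathlib

set_option autoImplicit false

namespace Pool.Agent.H956R2.HK

open MvPolynomial

section Step

variable {A : Type*} [CommRing A] [IsDomain A]

/-- The data of two syzygies of `(x^(2q), y^(2q), K)` used in the induction. -/
structure SyzData (x y : A) (q : ℕ) (K c : A) (a b : A) : Prop where
  ex : ∃ P₁ S₁ S₂ Q₂ u₁ u₂ v₁ v₂ : A,
    x * a * K = P₁ * x ^ (2 * q) + x * S₁ * y ^ (2 * q) ∧
    y * b * K = y * S₂ * x ^ (2 * q) + Q₂ * y ^ (2 * q) ∧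
    x * a = x ^ q + y * u₁ ∧
    y * b = y ^ q + x * u₂ ∧
    P₁ = c * y ^ q + x * v₁ ∧
    Q₂ = c * x ^ q + y * v₂ ∧
    x * a * Q₂ - y * b * (x * S₁) = c * x ^ (2 * q)

omit [IsDomain A] in
lemma SyzData.base (x y c : A) : SyzData x y 1 (c * x * y) c 1 1 := by
  refine ⟨c * y, 0, 0, c * x, 0, 0, 0, 0, ?_, ?_, ?_, ?_, ?_, ?_, ?_⟩ <;> ring

lemma SyzData.step {x y : A} (hx : x ≠ 0) (hy : y ≠ 0) {p f n : ℕ} [Fact p.Prime] [CharP A p]
    (hf : p ^ f = n + 2) {q : ℕ} {K c a b : A} (h : SyzData x y q K c a b)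
    {β : A} (hβ : β * c ^ (n + 2) = 1) {w₁ w₂ : A}
    (hw₁ : x * w₁ = x ^ (2 * (q * (n + 2))) * y) (hw₂ : y * w₂ = x * y ^ (2 * (q * (n + 2)))) :
    SyzData x y (q * (n + 2)) (K ^ (n + 2) + w₁ + w₂) (c ^ (n + 2) - β)
      (x ^ (n + 1) * a ^ (n + 2) - β * y ^ (n + 1) * b ^ (n + 2))
      (y ^ (n + 1) * b ^ (n + 2) - β * x ^ (n + 1) * a ^ (n + 2)) := by
  obtain ⟨P₁, S₁, S₂, Q₂, u₁, u₂, v₁, v₂, h1, h2, h3, h4, h5, h6, h7⟩ := h
  have hadd : ∀ s t : A, (s + t) ^ (n + 2) = s ^ (n + 2) + t ^ (n + 2) := by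
    intro s t
    rw [← hf]
    exact add_pow_char_pow s t p f
  have hsub : ∀ s t : A, (s - t) ^ (n + 2) = s ^ (n + 2) - t ^ (n + 2) := by
    intro s t
    rw [← hf]
    exact sub_pow_char_pow s t f
  -- Frobenius powers of the identities
  have e1 : x ^ (n + 2) * a ^ (n + 2) * K ^ (n + 2) =
      P₁ ^ (n + 2) * x ^ (2 * (q * (n + 2))) +
        x ^ (n + 2) * S₁ ^ (n + 2) * y ^ (2 * (q * (n + 2))) := by
    have := congrArg (· ^ (n + 2)) h1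
    simp only [hadd, mul_pow, ← pow_mul] at this
    rw [show 2 * q * (n + 2) = 2 * (q * (n + 2)) by ring] at this
    exact this
  have e2 : y ^ (n + 2) * b ^ (n + 2) * K ^ (n + 2) =
      y ^ (n + 2) * S₂ ^ (n + 2) * x ^ (2 * (q * (n + 2))) +
        Q₂ ^ (n + 2) * y ^ (2 * (q * (n + 2))) := by
    have := congrArg (· ^ (n + 2)) h2
    simp only [hadd, mul_pow, ← pow_mul] at this
    rw [show 2 * q * (n + 2) = 2 * (q * (n + 2)) by ring] at this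
    exact this
  have e3 : x ^ (n + 2) * a ^ (n + 2) = x ^ (q * (n + 2)) + y ^ (n + 2) * u₁ ^ (n + 2) := by
    have := congrArg (· ^ (n + 2)) h3
    simpa only [hadd, mul_pow, ← pow_mul] using this
  have e4 : y ^ (n + 2) * b ^ (n + 2) = y ^ (q * (n + 2)) + x ^ (n + 2) * u₂ ^ (n + 2) := by
    have := congrArg (· ^ (n + 2)) h4
    simpa only [hadd, mul_pow, ← pow_mul] using this
  have e5 : P₁ ^ (n + 2) = c ^ (n + 2) * y ^ (q * (n + 2)) + x ^ (n + 2) * v₁ ^ (n + 2) := by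
    have := congrArg (· ^ (n + 2)) h5
    simpa only [hadd, mul_pow, ← pow_mul] using this
  have e6 : Q₂ ^ (n + 2) = c ^ (n + 2) * x ^ (q * (n + 2)) + y ^ (n + 2) * v₂ ^ (n + 2) := by
    have := congrArg (· ^ (n + 2)) h6
    simpa only [hadd, mul_pow, ← pow_mul] using this
  have e7 : x ^ (n + 2) * a ^ (n + 2) * Q₂ ^ (n + 2) -
      y ^ (n + 2) * b ^ (n + 2) * (x ^ (n + 2) * S₁ ^ (n + 2)) =
      c ^ (n + 2) * x ^ (2 * (q * (n + 2))) := by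
    have := congrArg (· ^ (n + 2)) h7
    simp only [hsub, mul_pow, ← pow_mul] at this
    rw [show 2 * q * (n + 2) = 2 * (q * (n + 2)) by ring] at this
    exact this
  refine ⟨?_⟩
  generalize a ^ (n + 2) = a' at *
  generalize b ^ (n + 2) = b' at *
  generalize K ^ (n + 2) = K' at *
  generalize P₁ ^ (n + 2) = P' at *
  generalize Q₂ ^ (n + 2) = Q' at *
  generalize S₁ ^ (n + 2) = s₁ at *
  generalize S₂ ^ (n + 2) = s₂ at *
  generalize u₁ ^ (n + 2) = t₁ at *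
  generalize u₂ ^ (n + 2) = t₂ at *
  generalize v₁ ^ (n + 2) = r₁ at *
  generalize v₂ ^ (n + 2) = r₂ at *
  generalize c ^ (n + 2) = c' at *
  generalize x ^ (2 * (q * (n + 2))) = X2 at *
  generalize y ^ (2 * (q * (n + 2))) = Y2 at *
  generalize x ^ (q * (n + 2)) = X1 at *
  generalize y ^ (q * (n + 2)) = Y1 at *
  clear h1 h2 h3 h4 h5 h6 h7 hadd hsub
  refine ⟨P' - β * x * y ^ (n + 1) * s₂ + (x ^ (n + 1) * a' - β * y ^ (n + 1) * b') * y,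
    x ^ (n + 1) * s₁ + (y ^ (n + 1) * t₁ - β * x * y ^ n * b' - β * y ^ (n + 1) * r₂),
    y ^ (n + 1) * s₂ + (x ^ (n + 1) * t₂ - β * y * x ^ n * a' - β * x ^ (n + 1) * r₁),
    Q' - β * y * x ^ (n + 1) * s₁ + (y ^ (n + 1) * b' - β * x ^ (n + 1) * a') * x,
    y ^ (n + 1) * t₁ - β * x * y ^ n * b',
    x ^ (n + 1) * t₂ - β * y * x ^ n * a',
    x ^ (n + 1) * r₁ - β * y ^ (n + 1) * s₂ + y * x ^ n * a' - β * x ^ (n + 1) * t₂,
    y ^ (n + 1) * r₂ - β * x ^ (n + 1) * s₁ + x * y ^ n * b' - β * y ^ (n + 1) * t₁,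
    ?_, ?_, ?_, ?_, ?_, ?_, ?_⟩
  · apply mul_left_cancel₀ hy
    linear_combination y * e1 - β * x * e2 + (x ^ (n + 1) * a' - β * y ^ (n + 1) * b') * y * hw₁ +
      (x ^ (n + 1) * a' - β * y ^ (n + 1) * b') * x * hw₂ + x * Y2 * e3 - β * x * Y2 * e6
      - x * X1 * Y2 * hβ
  · apply mul_left_cancel₀ hx
    linear_combination x * e2 - β * y * e1 + (y ^ (n + 1) * b' - β * x ^ (n + 1) * a') * x * hw₂ +
      (y ^ (n + 1) * b' - β * x ^ (n + 1) * a') * y * hw₁ + y * X2 * e4 - β * y * X2 * e5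
      - y * Y1 * X2 * hβ
  · linear_combination e3
  · linear_combination e4
  · linear_combination e5 - β * e4
  · linear_combination e6 - β * e3
  · apply mul_left_cancel₀ (mul_ne_zero (mul_ne_zero hx hy) hy)
    linear_combination x * y * y * (1 - β ^ 2) * e7 + x * y ^ 2 * (- β * X2) * hβ
      + x ^ 2 * y ^ 2 * (y ^ (n + 1) * b' - β * x ^ (n + 1) * a') * (e3 - β * e6 - X1 * hβ)

omit [IsDomain A] in
lemma SyzData.ne_zero {x y : A} {q : ℕ} {K c a b : A} (h : SyzData x y q K c a b)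
    (hxy : ¬ y ∣ x ^ q) : a ≠ 0 := by
  obtain ⟨P₁, S₁, S₂, Q₂, u₁, u₂, v₁, v₂, h1, h2, h3, h4, h5, h6, h7⟩ := h
  rintro rfl
  apply hxy
  refine ⟨-u₁, ?_⟩
  linear_combination - h3

lemma SyzData.zero_syz {x y : A} (hx : x ≠ 0) {q : ℕ} {K a b : A}
    (h : SyzData x y q K 0 a b) : a * K ∈ Ideal.span {x ^ (2 * q), y ^ (2 * q)} := by
  obtain ⟨P₁, S₁, S₂, Q₂, u₁, u₂, v₁, v₂, h1, h2, h3, h4, h5, h6, h7⟩ := h
  rw [Ideal.mem_span_pair]
  refine ⟨v₁, S₁, ?_⟩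
  apply mul_left_cancel₀ hx
  linear_combination -h1 - h5 * x ^ (2 * q)

lemma SyzData.colon {x y : A} (hx : Prime x) (hy : Prime y) (hxy : ¬ y ∣ x)
    {q : ℕ} {K c a b : A} (h : SyzData x y q K c a b) {f : A}
    (hf : f * K ∈ Ideal.span {x ^ (2 * q), y ^ (2 * q)}) :
    c * f ∈ Ideal.span {x * a, y * b} := by
  obtain ⟨P₁, S₁, S₂, Q₂, u₁, u₂, v₁, v₂, h1, h2, h3, h4, h5, h6, h7⟩ := h
  obtain ⟨P, Q, hPQ⟩ := Ideal.mem_span_pair.1 hf
  have key : ∀ A₁ P₁ Q₁ : A, A₁ * K = P₁ * x ^ (2 * q) + Q₁ * y ^ (2 * q) →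
      ∃ H, f * Q₁ - A₁ * Q = x ^ (2 * q) * H := by
    intro A₁ P₁ Q₁ h
    have e : x ^ (2 * q) * (A₁ * P - f * P₁) = y ^ (2 * q) * (f * Q₁ - A₁ * Q) := by
      linear_combination f * h + A₁ * hPQ
    have hd : y ^ (2 * q) ∣ A₁ * P - f * P₁ := by
      apply Prime.pow_dvd_of_dvd_mul_left hy (2 * q) (a := x ^ (2 * q))
      · intro h'
        exact hxy (hy.dvd_of_dvd_pow h')
      · exact ⟨_, e⟩
    obtain ⟨H, hH⟩ := hd
    refine ⟨H, ?_⟩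
    apply mul_left_cancel₀ (pow_ne_zero (2 * q) hy.ne_zero)
    rw [← e, hH]
    ring
  obtain ⟨H₁, hH₁⟩ := key (x * a) P₁ (x * S₁) h1
  obtain ⟨H₂, hH₂⟩ := key (y * b) (y * S₂) Q₂ h2
  rw [Ideal.mem_span_pair]
  refine ⟨H₂, -H₁, ?_⟩
  apply mul_left_cancel₀ (pow_ne_zero (2 * q) hx.ne_zero)
  linear_combination f * h7 - x * a * hH₂ + y * b * hH₁

omit [IsDomain A] in
lemma mem_span_step {x y : A} {p f n : ℕ} [Fact p.Prime] [CharP A p]
    (hf : p ^ f = n + 2) {q : ℕ} {F K : A}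
    (h : F * K ∈ Ideal.span {x ^ (2 * q), y ^ (2 * q)}) :
    F ^ (n + 2) * K ^ (n + 2) ∈
      Ideal.span {x ^ (2 * (q * (n + 2))), y ^ (2 * (q * (n + 2)))} := by
  obtain ⟨P, Q, hPQ⟩ := Ideal.mem_span_pair.1 h
  rw [Ideal.mem_span_pair]
  refine ⟨P ^ (n + 2), Q ^ (n + 2), ?_⟩
  have hadd : ∀ s t : A, (s + t) ^ (n + 2) = s ^ (n + 2) + t ^ (n + 2) := by
    intro s t
    rw [← hf]
    exact add_pow_char_pow s t p f
  have := congrArg (· ^ (n + 2)) hPQ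
  simp only [hadd, mul_pow, ← pow_mul] at this
  rw [show 2 * q * (n + 2) = 2 * (q * (n + 2)) by ring] at this
  exact this

omit [IsDomain A] in
lemma mem_step_first {x y : A} {p f n : ℕ} [Fact p.Prime] [CharP A p]
    (hf : p ^ f = n + 2) {q : ℕ} {F K : A}
    (h : F * K ∈ Ideal.span {x ^ (2 * q), y ^ (2 * q)}) {w₁ w₂ : A}
    (hw₁ : x * w₁ = x ^ (2 * (q * (n + 2))) * y) (hw₂ : y * w₂ = x * y ^ (2 * (q * (n + 2)))) :
    (x * y * F ^ (n + 2)) * (K ^ (n + 2) + w₁ + w₂) ∈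
      Ideal.span {x ^ (2 * (q * (n + 2))), y ^ (2 * (q * (n + 2)))} := by
  obtain ⟨P, Q, hPQ⟩ := Ideal.mem_span_pair.1 (mem_span_step hf h)
  rw [Ideal.mem_span_pair]
  refine ⟨x * y * P + y ^ 2 * F ^ (n + 2), x * y * Q + x ^ 2 * F ^ (n + 2), ?_⟩
  linear_combination x * y * hPQ - F ^ (n + 2) * y * hw₁ - F ^ (n + 2) * x * hw₂

omit [IsDomain A] in
lemma mem_step_next {x y : A} {p f n : ℕ} [Fact p.Prime] [CharP A p]
    (hf : p ^ f = n + 2) {q : ℕ} {G K : A}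
    (h : (x * y * G) * K ∈ Ideal.span {x ^ (2 * q), y ^ (2 * q)}) {w₁ w₂ : A}
    (hw₁ : x * w₁ = x ^ (2 * (q * (n + 2))) * y) (hw₂ : y * w₂ = x * y ^ (2 * (q * (n + 2)))) :
    (x * y * G) ^ (n + 2) * (K ^ (n + 2) + w₁ + w₂) ∈
      Ideal.span {x ^ (2 * (q * (n + 2))), y ^ (2 * (q * (n + 2)))} := by
  obtain ⟨P, Q, hPQ⟩ := Ideal.mem_span_pair.1 (mem_span_step hf h)
  rw [Ideal.mem_span_pair]
  refine ⟨P + (x * y * G) ^ (n + 1) * y * G * y, Q + (x * y * G) ^ (n + 1) * x * G * x, ?_⟩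
  linear_combination hPQ - (x * y * G) ^ (n + 1) * y * G * hw₁ - (x * y * G) ^ (n + 1) * x * G * hw₂

end Step

end Pool.Agent.H956R2.HK
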