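import Mathlib
import Pool.Agent.H956R2.HK.Poly
import Pool.Agent.H956R2.HK.Compare

set_option autoImplicit false

namespace Pool.Agent.H956R2.HK

open MvPolynomial

section Seq

variable {k : Type*} [Field k]

/-- the dynamical system `c ↦ c^q₀ - c^(-q₀)` -/
noncomputable def cseq (q₀ : ℕ) (κ : k) : ℕ → k
  | 0 => κ
  | i + 1 => (cseq q₀ κ i) ^ q₀ - ((cseq q₀ κ i) ^ q₀)⁻¹

/-- the forms `K_q` -/
noncomputable def Kseq (q₀ : ℕ) (κ : k) : ℕ → MvPolynomial (Fin 2) k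
  | 0 => C κ * X 0 * X 1
  | i + 1 => (Kseq q₀ κ i) ^ q₀ + X 0 ^ (2 * q₀ ^ (i + 1) - 1) * X 1 +
      X 0 * X 1 ^ (2 * q₀ ^ (i + 1) - 1)

lemma prime_X' (i : Fin 2) : Prime (X i : MvPolynomial (Fin 2) k) := MvPolynomial.X_prime

lemma not_X1_dvd_X0 : ¬ (X 1 : MvPolynomial (Fin 2) k) ∣ X 0 := by
  rintro ⟨f, hf⟩
  have := congrArg (MvPolynomial.eval (fun i : Fin 2 => if i = 0 then (1 : k) else 0)) hf
  simp at this

variable {p : ℕ} [Fact p.Prime] [CharP k p]

lemma syz {f n : ℕ} (hf : p ^ f = n + 2) (κ : k) (i : ℕ) (hne : ∀ j < i, cseq (n + 2) κ j ≠ 0) :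
    ∃ a b : MvPolynomial (Fin 2) k,
      SyzData (X 0) (X 1) ((n + 2) ^ i) (Kseq (n + 2) κ i) (C (cseq (n + 2) κ i)) a b ∧
      a.IsHomogeneous ((n + 2) ^ i - 1) ∧ b.IsHomogeneous ((n + 2) ^ i - 1) := by
  have : CharP (MvPolynomial (Fin 2) k) p := inferInstance
  induction i with
  | zero =>
    refine ⟨1, 1, ?_, ?_, ?_⟩
    · rw [pow_zero]
      exact SyzData.base _ _ _
    · simpa using isHomogeneous_one (Fin 2) k
    · simpa using isHomogeneous_one (Fin 2) k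
  | succ i ih =>
    obtain ⟨a, b, h, ha, hb⟩ := ih (fun j hj => hne j (by omega))
    set c := cseq (n + 2) κ i with hc
    have hc0 : c ≠ 0 := hne i (by omega)
    have hpos : 1 ≤ (n + 2) ^ (i + 1) := Nat.one_le_pow _ _ (by omega)
    have hpos' : 1 ≤ (n + 2) ^ i := Nat.one_le_pow _ _ (by omega)
    have hβ : (C (c ^ (n + 2))⁻¹ : MvPolynomial (Fin 2) k) * (C c) ^ (n + 2) = 1 := by
      rw [← C_pow, ← C_mul, inv_mul_cancel₀ (pow_ne_zero _ hc0), C_1]
    have h' := h.step (X_ne_zero 0) (X_ne_zero 1) hf hβ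
      (w₁ := X 0 ^ (2 * (n + 2) ^ (i + 1) - 1) * X 1)
      (w₂ := X 0 * X 1 ^ (2 * (n + 2) ^ (i + 1) - 1))
      (by
        rw [← pow_succ, ← mul_assoc, ← pow_succ']
        congr 2
        omega)
      (by
        rw [← pow_succ, mul_left_comm, ← pow_succ']
        congr 2
        omega)
    refine ⟨X 0 ^ (n + 1) * a ^ (n + 2) - C (c ^ (n + 2))⁻¹ * X 1 ^ (n + 1) * b ^ (n + 2),
      X 1 ^ (n + 1) * b ^ (n + 2) - C (c ^ (n + 2))⁻¹ * X 0 ^ (n + 1) * a ^ (n + 2), ?_, ?_, ?_⟩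
    · rw [← pow_succ, ← C_pow, ← C_sub] at h'
      exact h'
    · have e1 : (X 0 ^ (n + 1) * a ^ (n + 2) : MvPolynomial (Fin 2) k).IsHomogeneous
          ((n + 2) ^ (i + 1) - 1) := by
        have := ((isHomogeneous_X k (0 : Fin 2)).pow (n + 1)).mul (ha.pow (n + 2))
        convert this using 1
        rw [pow_succ, one_mul, Nat.sub_mul]
        have : n + 2 ≤ (n + 2) ^ i * (n + 2) := by nlinarith
        omega
      have e2 : (C (c ^ (n + 2))⁻¹ * X 1 ^ (n + 1) * b ^ (n + 2) :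
          MvPolynomial (Fin 2) k).IsHomogeneous ((n + 2) ^ (i + 1) - 1) := by
        have := ((isHomogeneous_C (Fin 2) (c ^ (n + 2))⁻¹).mul
          ((isHomogeneous_X k (1 : Fin 2)).pow (n + 1))).mul (hb.pow (n + 2))
        convert this using 1
        rw [pow_succ, one_mul, Nat.sub_mul]
        have : n + 2 ≤ (n + 2) ^ i * (n + 2) := by nlinarith
        omega
      exact e1.sub e2
    · have e1 : (X 1 ^ (n + 1) * b ^ (n + 2) : MvPolynomial (Fin 2) k).IsHomogeneous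
          ((n + 2) ^ (i + 1) - 1) := by
        have := ((isHomogeneous_X k (1 : Fin 2)).pow (n + 1)).mul (hb.pow (n + 2))
        convert this using 1
        rw [pow_succ, one_mul, Nat.sub_mul]
        have : n + 2 ≤ (n + 2) ^ i * (n + 2) := by nlinarith
        omega
      have e2 : (C (c ^ (n + 2))⁻¹ * X 0 ^ (n + 1) * a ^ (n + 2) :
          MvPolynomial (Fin 2) k).IsHomogeneous ((n + 2) ^ (i + 1) - 1) := by
        have := ((isHomogeneous_C (Fin 2) (c ^ (n + 2))⁻¹).mul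
          ((isHomogeneous_X k (0 : Fin 2)).pow (n + 1))).mul (ha.pow (n + 2))
        convert this using 1
        rw [pow_succ, one_mul, Nat.sub_mul]
        have : n + 2 ≤ (n + 2) ^ i * (n + 2) := by nlinarith
        omega
      exact e1.sub e2

omit [Fact p.Prime] [CharP k p] in
lemma Kseq_hom (n : ℕ) (κ : k) (i : ℕ) :
    (Kseq (n + 2) κ i).IsHomogeneous (2 * (n + 2) ^ i) := by
  induction i with
  | zero =>
    have := ((isHomogeneous_C (Fin 2) κ).mul (isHomogeneous_X k (0 : Fin 2))).mul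
      (isHomogeneous_X k (1 : Fin 2))
    rw [Kseq, pow_zero]
    exact this
  | succ i ih =>
    have hpos : 1 ≤ (n + 2) ^ (i + 1) := Nat.one_le_pow _ _ (by omega)
    rw [Kseq]
    refine IsHomogeneous.add (IsHomogeneous.add ?_ ?_) ?_
    · have := ih.pow (n + 2)
      convert this using 1
      rw [pow_succ]
      ring
    · have := ((isHomogeneous_X k (0 : Fin 2)).pow (2 * (n + 2) ^ (i + 1) - 1)).mul
        (isHomogeneous_X k (1 : Fin 2))
      convert this using 1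
      omega
    · have := (isHomogeneous_X k (0 : Fin 2)).mul
        ((isHomogeneous_X k (1 : Fin 2)).pow (2 * (n + 2) ^ (i + 1) - 1))
      convert this using 1
      omega

/-- the colengths -/
noncomputable def ell (q₀ : ℕ) (κ : k) (i : ℕ) : ℕ :=
  Module.finrank k (MvPolynomial (Fin 2) k ⧸
    Ideal.span {(X 0 : MvPolynomial (Fin 2) k) ^ (2 * q₀ ^ i), X 1 ^ (2 * q₀ ^ i), Kseq q₀ κ i})

/-- generic level: the colength is at most `3 q²` -/
lemma ell_le {f n : ℕ} (hf : p ^ f = n + 2) (κ : k) (i : ℕ)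
    (hne : ∀ j ≤ i, cseq (n + 2) κ j ≠ 0) :
    ell (n + 2) κ i ≤ 3 * ((n + 2) ^ i) ^ 2 := by
  obtain ⟨a, b, h, ha, hb⟩ := syz hf κ i (fun j hj => hne j hj.le)
  have hq : 1 ≤ (n + 2) ^ i := Nat.one_le_pow _ _ (by omega)
  have h1 := (colength_add_rank (2 * (n + 2) ^ i) (Kseq (n + 2) κ i)).1
  have hA : (X 0 * a : MvPolynomial (Fin 2) k).IsHomogeneous ((n + 2) ^ i) := by
    have := (isHomogeneous_X k (0 : Fin 2)).mul ha
    convert this using 1
    omega
  have hB : (X 1 * b : MvPolynomial (Fin 2) k).IsHomogeneous ((n + 2) ^ i) := by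
    have := (isHomogeneous_X k (1 : Fin 2)).mul hb
    convert this using 1
    omega
  have h2 := rank_lower (k := k) hq (K := Kseq (n + 2) κ i)
    (ord_of_isHomogeneous hA) (ord_of_isHomogeneous hB) (by
      intro g hg
      have h3 := h.colon (prime_X' 0) (prime_X' 1) not_X1_dvd_X0 hg
      have h4 : g = C (cseq (n + 2) κ i)⁻¹ * (C (cseq (n + 2) κ i) * g) := by
        rw [← mul_assoc, ← C_mul, inv_mul_cancel₀ (hne i le_rfl), C_1, one_mul]
      rw [h4]
      exact Ideal.mul_mem_left _ _ h3)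
  unfold ell
  nlinarith

/-- existence of a syzygy of small degree at special levels -/
lemma exists_small {f n : ℕ} (hf : p ^ f = n + 2) (κ : k) (s : ℕ)
    (hne : ∀ j < s, cseq (n + 2) κ j ≠ 0) (hs : cseq (n + 2) κ s = 0) (t : ℕ) :
    ∃ G : MvPolynomial (Fin 2) k, X 0 * X 1 * G ≠ 0 ∧
      (X 0 * X 1 * G).totalDegree ≤ (n + 2) ^ (s + 1 + t) - n * (n + 2) ^ t ∧
      (X 0 * X 1 * G) * Kseq (n + 2) κ (s + 1 + t) ∈
        Ideal.span {(X 0 : MvPolynomial (Fin 2) k) ^ (2 * (n + 2) ^ (s + 1 + t)),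
          X 1 ^ (2 * (n + 2) ^ (s + 1 + t))} := by
  have : CharP (MvPolynomial (Fin 2) k) p := inferInstance
  have hw₁ : ∀ i, (X 0 : MvPolynomial (Fin 2) k) * (X 0 ^ (2 * (n + 2) ^ (i + 1) - 1) * X 1) =
      X 0 ^ (2 * ((n + 2) ^ i * (n + 2))) * X 1 := by
    intro i
    have hpos : 1 ≤ (n + 2) ^ (i + 1) := Nat.one_le_pow _ _ (by omega)
    rw [← pow_succ, ← mul_assoc, ← pow_succ']
    congr 2
    omega
  have hw₂ : ∀ i, (X 1 : MvPolynomial (Fin 2) k) * (X 0 * X 1 ^ (2 * (n + 2) ^ (i + 1) - 1)) =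
      X 0 * X 1 ^ (2 * ((n + 2) ^ i * (n + 2))) := by
    intro i
    have hpos : 1 ≤ (n + 2) ^ (i + 1) := Nat.one_le_pow _ _ (by omega)
    rw [← pow_succ, mul_left_comm, ← pow_succ']
    congr 2
    omega
  induction t with
  | zero =>
    obtain ⟨a, b, h, ha, hb⟩ := syz hf κ s hne
    rw [hs, C_0] at h
    have hpos : 1 ≤ (n + 2) ^ s := Nat.one_le_pow _ _ (by omega)
    have ha0 : a ≠ 0 := h.ne_zero (by
      intro hd
      exact not_X1_dvd_X0 ((prime_X' (k := k) 1).dvd_of_dvd_pow hd))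
    have h1 := h.zero_syz (X_ne_zero 0)
    have h2 := mem_step_first (p := p) (f := f) hf h1 (hw₁ s) (hw₂ s)
    refine ⟨a ^ (n + 2), ?_, ?_, ?_⟩
    · exact mul_ne_zero (mul_ne_zero (X_ne_zero 0) (X_ne_zero 1)) (pow_ne_zero _ ha0)
    · have h3 : (X 0 * X 1 * a ^ (n + 2) : MvPolynomial (Fin 2) k).totalDegree ≤
          1 + 1 + (n + 2) * ((n + 2) ^ s - 1) := by
        refine (totalDegree_mul _ _).trans (add_le_add ((totalDegree_mul _ _).trans
          (add_le_add (totalDegree_X _).le (totalDegree_X _).le)) ?_)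
        refine (totalDegree_pow _ _).trans ?_
        exact Nat.mul_le_mul_left _ ha.totalDegree_le
      refine h3.trans ?_
      obtain ⟨m, hm⟩ : ∃ m, (n + 2) ^ s = m + 1 := ⟨(n + 2) ^ s - 1, by omega⟩
      rw [add_zero, pow_zero, mul_one, pow_succ, hm, Nat.add_sub_cancel]
      have : (m + 1) * (n + 2) = (n + 2) * m + n + 2 := by ring
      omega
    · rw [add_zero, pow_succ]
      rw [pow_succ] at h2
      exact h2
  | succ t ih =>
    obtain ⟨G, hG0, hGd, hG⟩ := ih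
    have h2 := mem_step_next (p := p) (f := f) hf hG (hw₁ (s + 1 + t)) (hw₂ (s + 1 + t))
    refine ⟨(X 0 * X 1) ^ (n + 1) * G ^ (n + 2), ?_, ?_, ?_⟩
    · have : X 0 * X 1 * ((X 0 * X 1) ^ (n + 1) * G ^ (n + 2)) =
          (X 0 * X 1 * G : MvPolynomial (Fin 2) k) ^ (n + 2) := by ring
      rw [this]
      exact pow_ne_zero _ hG0
    · have : X 0 * X 1 * ((X 0 * X 1) ^ (n + 1) * G ^ (n + 2)) =
          (X 0 * X 1 * G : MvPolynomial (Fin 2) k) ^ (n + 2) := by ring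
      rw [this]
      refine (totalDegree_pow _ _).trans ?_
      refine (Nat.mul_le_mul_left _ hGd).trans ?_
      rw [Nat.mul_sub]
      apply tsub_le_tsub
      · rw [show s + 1 + (t + 1) = s + 1 + t + 1 by ring, pow_succ (n + 2) (s + 1 + t), mul_comm]
      · rw [pow_succ]
        apply le_of_eq
        ring
    · have : X 0 * X 1 * ((X 0 * X 1) ^ (n + 1) * G ^ (n + 2)) =
          (X 0 * X 1 * G : MvPolynomial (Fin 2) k) ^ (n + 2) := by ring
      rw [this, show s + 1 + (t + 1) = s + 1 + t + 1 by ring, pow_succ (n + 2) (s + 1 + t)]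
      rw [pow_succ (n + 2) (s + 1 + t)] at h2
      exact h2

/-- special levels: the colength is larger -/
lemma ell_ge {f n : ℕ} (hf : p ^ f = n + 2) (κ : k) (s : ℕ)
    (hne : ∀ j < s, cseq (n + 2) κ j ≠ 0) (hs : cseq (n + 2) κ s = 0) (t : ℕ) :
    3 * ((n + 2) ^ (s + 1 + t)) ^ 2 + (n * (n + 2) ^ t) ^ 2 ≤ ell (n + 2) κ (s + 1 + t) := by
  obtain ⟨G, hG0, hGd, hG⟩ := exists_small hf κ s hne hs t
  have hle : n * (n + 2) ^ t ≤ (n + 2) ^ (s + 1 + t) := by
    rw [show s + 1 + t = s + t + 1 by ring, pow_succ, mul_comm]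
    apply Nat.mul_le_mul _ (by omega)
    exact Nat.pow_le_pow_right (by omega) (by omega)
  have h1 := (colength_add_rank (2 * (n + 2) ^ (s + 1 + t)) (Kseq (n + 2) κ (s + 1 + t))).1
  have h2 := rank_upper (k := k) (q := (n + 2) ^ (s + 1 + t))
    (ρ := (n + 2) ^ (s + 1 + t) - n * (n + 2) ^ t) (Nat.sub_le _ _)
    (ord_of_isHomogeneous (Kseq_hom n κ _)) hG0 hGd hG
  unfold ell
  obtain ⟨ρ, hρ⟩ : ∃ ρ, (n + 2) ^ (s + 1 + t) = ρ + n * (n + 2) ^ t :=
    ⟨(n + 2) ^ (s + 1 + t) - n * (n + 2) ^ t, by omega⟩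
  have hρ' : (n + 2) ^ (s + 1 + t) - n * (n + 2) ^ t = ρ := by omega
  rw [hρ'] at h2
  generalize Module.finrank k (LinearMap.range (TT (box (2 * (n + 2) ^ (s + 1 + t)))
    (Kseq (n + 2) κ (s + 1 + t)))) = r at h1 h2
  generalize Module.finrank k (MvPolynomial (Fin 2) k ⧸
    Ideal.span {(X 0 : MvPolynomial (Fin 2) k) ^ (2 * (n + 2) ^ (s + 1 + t)),
      X 1 ^ (2 * (n + 2) ^ (s + 1 + t)), Kseq (n + 2) κ (s + 1 + t)}) = l at h1
  rw [hρ] at h1 h2 ⊢
  generalize n * (n + 2) ^ t = η at h1 h2 ⊢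
  nlinarith

end Seq

end Pool.Agent.H956R2.HK
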