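import Mathlib
import Pool.Agent.H956R2.HK.Seq

set_option autoImplicit false

namespace Pool.Agent.H956R2.HK

open MvPolynomial Filter Topology

section Lim

variable {k : Type*} [Field k]

variable (k) in
/-- the ideal `(x^N, y^N)` -/
noncomputable def I0 (N : ℕ) : Ideal (MvPolynomial (Fin 2) k) :=
  Ideal.span {(X 0 : MvPolynomial (Fin 2) k) ^ N, X 1 ^ N}

instance finite_I0 (N : ℕ) : FiniteDimensional k (MvPolynomial (Fin 2) k ⧸ I0 k N) := finite_box N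

instance finite_I0' (N : ℕ) (J : Ideal (MvPolynomial (Fin 2) k)) :
    FiniteDimensional k (MvPolynomial (Fin 2) k ⧸ (I0 k N ⊔ J)) := finite_quot_of_le le_sup_left

lemma ell_eq (q₀ : ℕ) (κ : k) (i : ℕ) : ell q₀ κ i =
    Module.finrank k (MvPolynomial (Fin 2) k ⧸
      (I0 k (2 * q₀ ^ i) ⊔ Ideal.span {Kseq q₀ κ i})) := by
  rw [ell, span_triple]
  rfl

variable [Finite k] {p : ℕ} [Fact p.Prime] [CharP k p]

lemma finrank_level (j N : ℕ) (K : MvPolynomial (Fin 2) k) :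
    Module.finrank k (MvPolynomial (Fin 2) k ⧸
      (I0 k (N * p ^ j) ⊔ Ideal.span {K ^ (p ^ j)})) =
    (p ^ j) ^ 2 * Module.finrank k (MvPolynomial (Fin 2) k ⧸ (I0 k N ⊔ Ideal.span {K})) := by
  have e1 : I0 k N ⊔ Ideal.span {K} =
      Ideal.span {(X 0 : MvPolynomial (Fin 2) k) ^ N, X 1 ^ N, K} := by
    rw [span_triple]
    rfl
  have e2 : I0 k (N * p ^ j) ⊔ Ideal.span {K ^ (p ^ j)} =
      Ideal.span ((fun x : MvPolynomial (Fin 2) k => x ^ (p ^ j)) ''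
        {(X 0 : MvPolynomial (Fin 2) k) ^ N, X 1 ^ N, K}) := by
    rw [Set.image_insert_eq, Set.image_insert_eq, Set.image_singleton, ← pow_mul, ← pow_mul,
      span_triple]
    rfl
  have hfin : FiniteDimensional k (MvPolynomial (Fin 2) k ⧸
      Ideal.span {(X 0 : MvPolynomial (Fin 2) k) ^ N, X 1 ^ N, K}) := by
    rw [← e1]
    infer_instance
  rw [e1, e2]
  exact finrank_frob j _

omit [Finite k] [Fact p.Prime] [CharP k p] in
lemma cross_le (N u : ℕ) :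
    Module.finrank k (MvPolynomial (Fin 2) k ⧸
      (I0 k N ⊔ Ideal.span {((X 0 : MvPolynomial (Fin 2) k) * X 1) ^ u})) ≤ 2 * N * u :=
  finrank_cross_le N u

omit [Finite k] [Fact p.Prime] [CharP k p] in
lemma cross_le_one (N : ℕ) :
    Module.finrank k (MvPolynomial (Fin 2) k ⧸
      (I0 k N ⊔ Ideal.span {(X 0 : MvPolynomial (Fin 2) k) * X 1})) ≤ 2 * N := by
  have := cross_le (k := k) N 1
  rwa [pow_one, mul_one] at this

omit [Finite k] [Fact p.Prime] [CharP k p] in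
lemma step_mem (n : ℕ) (κ : k) (i : ℕ) :
    (X 0 * X 1) * Kseq (n + 2) κ (i + 1) - (X 0 * X 1) * Kseq (n + 2) κ i ^ (n + 2) ∈
      I0 k (2 * (n + 2) ^ (i + 1)) := by
  have hpos : 1 ≤ (n + 2) ^ (i + 1) := Nat.one_le_pow _ _ (by omega)
  obtain ⟨m, hm⟩ : ∃ m, 2 * (n + 2) ^ (i + 1) = m + 1 := ⟨2 * (n + 2) ^ (i + 1) - 1, by omega⟩
  rw [Kseq, I0, Ideal.mem_span_pair, hm]
  refine ⟨X 1 ^ 2, X 0 ^ 2, ?_⟩
  rw [show m + 1 - 1 = m by omega]
  ring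

lemma ell_step {f n : ℕ} (hf : p ^ f = n + 2) (κ : k) (i : ℕ) :
    ell (n + 2) κ (i + 1) ≤ (n + 2) ^ 2 * ell (n + 2) κ i + 4 * (n + 2) ^ (i + 1) ∧
    (n + 2) ^ 2 * ell (n + 2) κ i ≤ ell (n + 2) κ (i + 1) + 4 * (n + 2) ^ (i + 1) := by
  have h0 : Module.finrank k (MvPolynomial (Fin 2) k ⧸
      (I0 k (2 * (n + 2) ^ (i + 1)) ⊔ Ideal.span {Kseq (n + 2) κ i ^ (n + 2)})) =
      (n + 2) ^ 2 * ell (n + 2) κ i := by
    have := finrank_level (k := k) (p := p) f (2 * (n + 2) ^ i) (Kseq (n + 2) κ i)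
    rw [hf] at this
    rw [ell_eq, ← this, pow_succ, mul_assoc]
  have h1 := compare (k := k) (I0 k (2 * (n + 2) ^ (i + 1))) (Kseq (n + 2) κ (i + 1))
    (Kseq (n + 2) κ i ^ (n + 2)) (X 0 * X 1) (step_mem n κ i)
  have h2 := compare (k := k) (I0 k (2 * (n + 2) ^ (i + 1))) (Kseq (n + 2) κ i ^ (n + 2))
    (Kseq (n + 2) κ (i + 1)) (X 0 * X 1) (by
      rw [← neg_sub]
      exact (Ideal.neg_mem_iff _).2 (step_mem n κ i))
  have h3 := cross_le_one (k := k) (2 * (n + 2) ^ (i + 1))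
  rw [← ell_eq] at h1 h2
  constructor <;> omega

/-- existence of the limit -/
lemma exists_lim {f n : ℕ} (hf : p ^ f = n + 2) (hn : 1 ≤ n) (κ : k) :
    ∃ L : ℝ, Tendsto (fun i => (ell (n + 2) κ i : ℝ) / (((n : ℝ) + 2) ^ i) ^ 2) atTop (𝓝 L) ∧
      ∀ i, |(ell (n + 2) κ i : ℝ) / (((n : ℝ) + 2) ^ i) ^ 2 - L| ≤ 4 / ((n : ℝ) + 2) ^ i := by
  set a : ℕ → ℝ := fun i => (ell (n + 2) κ i : ℝ) / (((n : ℝ) + 2) ^ i) ^ 2 with ha
  have hn' : (1 : ℝ) ≤ n := by exact_mod_cast hn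
  have hq : (0 : ℝ) < (n : ℝ) + 2 := by positivity
  have hr : (1 / ((n : ℝ) + 2)) < 1 := by
    rw [div_lt_one hq]
    linarith
  have hstep : ∀ i, dist (a i) (a (i + 1)) ≤ (4 / ((n : ℝ) + 2)) * (1 / ((n : ℝ) + 2)) ^ i := by
    intro i
    obtain ⟨h1, h2⟩ := ell_step hf κ i
    have h1' : (ell (n + 2) κ (i + 1) : ℝ) ≤ ((n : ℝ) + 2) ^ 2 * ell (n + 2) κ i +
        4 * ((n : ℝ) + 2) ^ (i + 1) := by exact_mod_cast h1
    have h2' : ((n : ℝ) + 2) ^ 2 * ell (n + 2) κ i ≤ (ell (n + 2) κ (i + 1) : ℝ) +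
        4 * ((n : ℝ) + 2) ^ (i + 1) := by exact_mod_cast h2
    have e : a i - a (i + 1) = (((n : ℝ) + 2) ^ 2 * ell (n + 2) κ i - ell (n + 2) κ (i + 1)) /
        (((n : ℝ) + 2) ^ (i + 1)) ^ 2 := by
      simp only [ha]
      field_simp
      ring
    have e' : (4 / ((n : ℝ) + 2)) * (1 / ((n : ℝ) + 2)) ^ i =
        4 * ((n : ℝ) + 2) ^ (i + 1) / (((n : ℝ) + 2) ^ (i + 1)) ^ 2 := by
      rw [one_div, inv_pow]
      field_simp
      ring
    rw [Real.dist_eq, e, e', abs_div, abs_of_pos (show (0 : ℝ) < (((n : ℝ) + 2) ^ (i + 1)) ^ 2 by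
      positivity)]
    apply div_le_div_of_nonneg_right _ (by positivity)
    rw [abs_le]
    constructor <;> linarith
  obtain ⟨L, hL⟩ := cauchySeq_tendsto_of_complete (cauchySeq_of_le_geometric _ _ hr hstep)
  refine ⟨L, hL, fun i => ?_⟩
  have h := dist_le_of_le_geometric_of_tendsto _ _ hr hstep hL i
  rw [Real.dist_eq] at h
  refine h.trans ?_
  rw [one_div, inv_pow]
  have h1 : (1 : ℝ) - (((n : ℝ) + 2))⁻¹ = ((n : ℝ) + 1) / ((n : ℝ) + 2) := by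
    field_simp
    ring
  rw [h1]
  have h2 : (4 / ((n : ℝ) + 2)) * (((n : ℝ) + 2) ^ i)⁻¹ / (((n : ℝ) + 1) / ((n : ℝ) + 2)) =
      (4 / ((n : ℝ) + 2) ^ i) / ((n : ℝ) + 1) := by
    field_simp
  rw [h2]
  apply div_le_self (by positivity)
  linarith

/-- the limit is slightly larger than `3` -/
lemma lim_bounds {f n : ℕ} (hf : p ^ f = n + 2) (hn : 1 ≤ n) (κ : k) (s : ℕ)
    (hne : ∀ j ≤ s, cseq (n + 2) κ j ≠ 0) (hs : cseq (n + 2) κ (s + 1) = 0) :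
    ∃ L : ℝ, Tendsto (fun i => (ell (n + 2) κ i : ℝ) / (((n : ℝ) + 2) ^ i) ^ 2) atTop (𝓝 L) ∧
      3 < L ∧ L ≤ 3 + 4 / ((n : ℝ) + 2) ^ s := by
  obtain ⟨L, hL, hL'⟩ := exists_lim hf hn κ
  have hn' : (1 : ℝ) ≤ n := by exact_mod_cast hn
  refine ⟨L, hL, ?_, ?_⟩
  · have h1 : (3 : ℝ) + (n : ℝ) ^ 2 / (((n : ℝ) + 2) ^ (s + 2)) ^ 2 ≤ L := by
      refine ge_of_tendsto hL ?_
      rw [eventually_atTop]
      refine ⟨s + 2, fun i hi => ?_⟩
      obtain ⟨t, rfl⟩ := Nat.exists_eq_add_of_le hi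
      have h2 := ell_ge hf κ (s + 1) (fun j hj => hne j (by omega)) hs t
      have h2' : (3 : ℝ) * (((n : ℝ) + 2) ^ (s + 2 + t)) ^ 2 + ((n : ℝ) * ((n : ℝ) + 2) ^ t) ^ 2 ≤
          ell (n + 2) κ (s + 2 + t) := by exact_mod_cast h2
      rw [le_div_iff₀ (by positivity)]
      refine le_trans (le_of_eq ?_) h2'
      rw [pow_add _ (s + 2) t]
      field_simp
    have h3 : (0 : ℝ) < (n : ℝ) ^ 2 / (((n : ℝ) + 2) ^ (s + 2)) ^ 2 := by positivity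
    linarith
  · have h1 := ell_le hf κ s hne
    have h1' : (ell (n + 2) κ s : ℝ) ≤ 3 * (((n : ℝ) + 2) ^ s) ^ 2 := by exact_mod_cast h1
    have h2 : (ell (n + 2) κ s : ℝ) / (((n : ℝ) + 2) ^ s) ^ 2 ≤ 3 := by
      rw [div_le_iff₀ (by positivity)]
      exact h1'
    have h3 := (abs_le.1 (hL' s)).1
    linarith

end Lim

end Pool.Agent.H956R2.HK
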