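import Mathlib
import Pool.Agent.H956R2.HK.Lim

set_option autoImplicit false

namespace Pool.Agent.H956R2.HK

open MvPolynomial Filter Topology

section Quot

variable {k B V : Type*} [Field k] [CommRing B] [Algebra k B] [AddCommGroup V] [Module k V]

/-- quotient by the kernel of a surjective linear map -/
noncomputable def quotEquiv (J : Ideal B) (ψ : B →ₗ[k] V) (hs : Function.Surjective ψ)
    (hk : ∀ b, ψ b = 0 ↔ b ∈ J) : (B ⧸ J) ≃ₗ[k] V :=
  (Submodule.Quotient.restrictScalarsEquiv k J).symm ≪≫ₗ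
    (Submodule.quotEquivOfEq (J.restrictScalars k) (LinearMap.ker ψ) (by
      ext b
      rw [LinearMap.mem_ker, hk]
      rfl)) ≪≫ₗ ψ.quotKerEquivOfSurjective hs

lemma finrank_quot_of_ker (J : Ideal B) (ψ : B →ₗ[k] V) (hs : Function.Surjective ψ)
    (hk : ∀ b, ψ b = 0 ↔ b ∈ J) : Module.finrank k (B ⧸ J) = Module.finrank k V :=
  (quotEquiv J ψ hs hk).finrank_eq

lemma finite_quot_of_ker [FiniteDimensional k V] (J : Ideal B) (ψ : B →ₗ[k] V)
    (hs : Function.Surjective ψ) (hk : ∀ b, ψ b = 0 ↔ b ∈ J) : FiniteDimensional k (B ⧸ J) :=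
  Module.Finite.equiv (quotEquiv J ψ hs hk).symm

end Quot

section Free

variable {k A B : Type*} [Field k] [CommRing A] [CommRing B] [Algebra k A] [Algebra k B]
  [Algebra A B] [IsScalarTower k A B] [Nontrivial A] [Module.Free A B] [Module.Finite A B]

variable (k) in
/-- coordinates modulo `J` -/
noncomputable def coordMap (J : Ideal A) :
    B →ₗ[k] (Fin (Module.finrank A B) → A ⧸ J) :=
  LinearMap.pi fun i => ((Ideal.Quotient.mkₐ k J).toLinearMap).comp
    (((LinearMap.proj i : (Fin (Module.finrank A B) → A) →ₗ[A] A).comp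
      (Module.finBasis A B).equivFun.toLinearMap).restrictScalars k)

lemma coordMap_apply (J : Ideal A) (b : B) (i : Fin (Module.finrank A B)) :
    coordMap k J b i = Ideal.Quotient.mk J ((Module.finBasis A B).equivFun b i) := rfl

lemma coordMap_surj (J : Ideal A) : Function.Surjective (coordMap (B := B) k J) := by
  intro v
  choose w hw using fun i => Ideal.Quotient.mk_surjective (v i)
  refine ⟨(Module.finBasis A B).equivFun.symm w, ?_⟩
  funext i
  rw [coordMap_apply, LinearEquiv.apply_symm_apply, hw]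

lemma coordMap_ker (J : Ideal A) (b : B) :
    coordMap k J b = 0 ↔ b ∈ J.map (algebraMap A B) := by
  constructor
  · intro h
    rw [← (Module.finBasis A B).sum_equivFun b]
    refine Ideal.sum_mem _ fun i _ => ?_
    have hi := congrFun h i
    rw [coordMap_apply, Pi.zero_apply, Ideal.Quotient.eq_zero_iff_mem] at hi
    rw [Algebra.smul_def]
    exact Ideal.mul_mem_right _ _ (Ideal.mem_map_of_mem _ hi)
  · intro h
    have h' : b ∈ J • (⊤ : Submodule A B) := by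
      rw [Ideal.smul_top_eq_map]
      exact h
    refine Submodule.smul_induction_on h' ?_ ?_
    · intro c hc b' _
      funext i
      rw [coordMap_apply, map_smul, Pi.smul_apply, smul_eq_mul, Pi.zero_apply,
        Ideal.Quotient.eq_zero_iff_mem]
      exact Ideal.mul_mem_right _ _ hc
    · intro b₁ b₂ h₁ h₂
      rw [map_add, h₁, h₂, add_zero]

lemma finite_map (J : Ideal A) [FiniteDimensional k (A ⧸ J)] :
    FiniteDimensional k (B ⧸ J.map (algebraMap A B)) :=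
  finite_quot_of_ker _ (coordMap k J) (coordMap_surj J) (coordMap_ker J)

lemma finrank_map (J : Ideal A) [FiniteDimensional k (A ⧸ J)] :
    Module.finrank k (B ⧸ J.map (algebraMap A B)) =
      Module.finrank A B * Module.finrank k (A ⧸ J) := by
  rw [finrank_quot_of_ker _ (coordMap k J) (coordMap_surj J) (coordMap_ker J),
    Module.finrank_pi_fintype, Finset.sum_const, Finset.card_univ, Fintype.card_fin, smul_eq_mul]

end Free

section BLim

variable {k B : Type*} [Field k] [CommRing B] [Algebra k B]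
  [Algebra (MvPolynomial (Fin 2) k) B] [IsScalarTower k (MvPolynomial (Fin 2) k) B]
  [Module.Free (MvPolynomial (Fin 2) k) B] [Module.Finite (MvPolynomial (Fin 2) k) B]


/-- the two algebraic elements -/
structure ZData (k : Type*) {B : Type*} [Field k] [CommRing B]
    [Algebra (MvPolynomial (Fin 2) k) B] (q₀ : ℕ) (z₁ z₂ : B) : Prop where
  e₁ : z₁ ^ q₀ = (algebraMap (MvPolynomial (Fin 2) k) B (X 0)) ^ (q₀ - 1) *
    (z₁ + algebraMap (MvPolynomial (Fin 2) k) B (X 1))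
  e₂ : z₂ ^ q₀ = (algebraMap (MvPolynomial (Fin 2) k) B (X 1)) ^ (q₀ - 1) *
    (z₂ + algebraMap (MvPolynomial (Fin 2) k) B (X 0))

/-- the element `z` -/
noncomputable def zel (κ : k) (z₁ z₂ : B) : B :=
  algebraMap (MvPolynomial (Fin 2) k) B (C κ * X 0 * X 1) +
    algebraMap (MvPolynomial (Fin 2) k) B (X 0) * z₁ +
    algebraMap (MvPolynomial (Fin 2) k) B (X 1) * z₂

variable {p : ℕ} [Fact p.Prime] [CharP k p]

omit [Algebra k B] [IsScalarTower k (MvPolynomial (Fin 2) k) B]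
  [Module.Free (MvPolynomial (Fin 2) k) B] [Module.Finite (MvPolynomial (Fin 2) k) B]
  [CharP k p] in
lemma z_pow [CharP B p] {f n : ℕ} (hf : p ^ f = n + 2) (κ : k) {z₁ z₂ : B}
    (hz : ZData k (n + 2) z₁ z₂) (i : ℕ) :
    zel κ z₁ z₂ ^ ((n + 2) ^ i) = algebraMap (MvPolynomial (Fin 2) k) B (Kseq (n + 2) κ i) +
      algebraMap (MvPolynomial (Fin 2) k) B (X 0) ^ (2 * (n + 2) ^ i - 1) * z₁ +
      algebraMap (MvPolynomial (Fin 2) k) B (X 1) ^ (2 * (n + 2) ^ i - 1) * z₂ := by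
  have hadd : ∀ s t : B, (s + t) ^ (n + 2) = s ^ (n + 2) + t ^ (n + 2) := by
    intro s t
    rw [← hf]
    exact add_pow_char_pow s t p f
  induction i with
  | zero => simp [zel, Kseq]
  | succ i ih =>
    have hpos : 1 ≤ (n + 2) ^ i := Nat.one_le_pow _ _ (by omega)
    obtain ⟨m, hm⟩ : ∃ m, (n + 2) ^ i = m + 1 := ⟨(n + 2) ^ i - 1, by omega⟩
    have e1 := hz.e₁
    have e2 := hz.e₂
    rw [show n + 2 - 1 = n + 1 by omega] at e1 e2
    have hexp : 2 * (n + 2) ^ (i + 1) - 1 = (2 * m + 1) * (n + 2) + (n + 1) := by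
      rw [pow_succ, hm]
      have : 2 * ((m + 1) * (n + 2)) = (2 * m + 1) * (n + 2) + (n + 1) + 1 := by ring
      omega
    have hexp' : 2 * (n + 2) ^ i - 1 = 2 * m + 1 := by omega
    have key : zel κ z₁ z₂ ^ ((n + 2) ^ (i + 1)) = (zel κ z₁ z₂ ^ ((n + 2) ^ i)) ^ (n + 2) := by
      rw [← pow_mul, ← pow_succ]
    rw [key, ih, hadd, hadd, Kseq, hexp, hexp', mul_pow, mul_pow, e1, e2]
    simp only [map_add, map_mul, map_pow]
    rw [← pow_mul, ← pow_mul]
    ring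

omit [Algebra k B] [IsScalarTower k (MvPolynomial (Fin 2) k) B]
  [Module.Free (MvPolynomial (Fin 2) k) B] [Module.Finite (MvPolynomial (Fin 2) k) B]
  [CharP k p] in
/-- the comparison between `z^(qu)` and `K^u` -/
lemma z_compare [CharP B p] {f n : ℕ} (hf : p ^ f = n + 2) (κ : k) {z₁ z₂ : B}
    (hz : ZData k (n + 2) z₁ z₂) (i j : ℕ) :
    algebraMap (MvPolynomial (Fin 2) k) B ((X 0 * X 1) ^ (p ^ j)) *
        zel κ z₁ z₂ ^ ((n + 2) ^ i * p ^ j) -
      algebraMap (MvPolynomial (Fin 2) k) B ((X 0 * X 1) ^ (p ^ j)) *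
        algebraMap (MvPolynomial (Fin 2) k) B (Kseq (n + 2) κ i ^ (p ^ j)) ∈
      (I0 k (2 * (n + 2) ^ i * p ^ j)).map (algebraMap (MvPolynomial (Fin 2) k) B) := by
  have hpos : 1 ≤ (n + 2) ^ i := Nat.one_le_pow _ _ (by omega)
  obtain ⟨m, hm⟩ : ∃ m, 2 * (n + 2) ^ i = m + 1 := ⟨2 * (n + 2) ^ i - 1, by omega⟩
  have h := z_pow hf κ hz i
  have e : algebraMap (MvPolynomial (Fin 2) k) B ((X 0 * X 1) ^ (p ^ j)) *
        zel κ z₁ z₂ ^ ((n + 2) ^ i * p ^ j) -
      algebraMap (MvPolynomial (Fin 2) k) B ((X 0 * X 1) ^ (p ^ j)) *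
        algebraMap (MvPolynomial (Fin 2) k) B (Kseq (n + 2) κ i ^ (p ^ j)) =
      (algebraMap (MvPolynomial (Fin 2) k) B (X 0) * algebraMap (MvPolynomial (Fin 2) k) B (X 1) *
        (zel κ z₁ z₂ ^ ((n + 2) ^ i) -
          algebraMap (MvPolynomial (Fin 2) k) B (Kseq (n + 2) κ i))) ^ (p ^ j) := by
    rw [map_pow, map_mul, map_pow, pow_mul, ← mul_sub, ← sub_pow_char_pow, ← mul_pow]
  have e2 : (algebraMap (MvPolynomial (Fin 2) k) B (X 0) *
      algebraMap (MvPolynomial (Fin 2) k) B (X 1) *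
        (zel κ z₁ z₂ ^ ((n + 2) ^ i) -
          algebraMap (MvPolynomial (Fin 2) k) B (Kseq (n + 2) κ i))) =
      algebraMap (MvPolynomial (Fin 2) k) B (X 1) * z₁ *
        algebraMap (MvPolynomial (Fin 2) k) B (X 0 ^ (2 * (n + 2) ^ i)) +
      algebraMap (MvPolynomial (Fin 2) k) B (X 0) * z₂ *
        algebraMap (MvPolynomial (Fin 2) k) B (X 1 ^ (2 * (n + 2) ^ i)) := by
    rw [h, hm, show m + 1 - 1 = m by omega, map_pow, map_pow]
    ring
  have t1 : (algebraMap (MvPolynomial (Fin 2) k) B (X 1) * z₁ *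
        algebraMap (MvPolynomial (Fin 2) k) B (X 0 ^ (2 * (n + 2) ^ i))) ^ (p ^ j) =
      (algebraMap (MvPolynomial (Fin 2) k) B (X 1) * z₁) ^ (p ^ j) *
        algebraMap (MvPolynomial (Fin 2) k) B (X 0 ^ (2 * (n + 2) ^ i * p ^ j)) := by
    rw [mul_pow, ← map_pow, ← pow_mul]
  have t2 : (algebraMap (MvPolynomial (Fin 2) k) B (X 0) * z₂ *
        algebraMap (MvPolynomial (Fin 2) k) B (X 1 ^ (2 * (n + 2) ^ i))) ^ (p ^ j) =
      (algebraMap (MvPolynomial (Fin 2) k) B (X 0) * z₂) ^ (p ^ j) *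
        algebraMap (MvPolynomial (Fin 2) k) B (X 1 ^ (2 * (n + 2) ^ i * p ^ j)) := by
    rw [mul_pow, ← map_pow, ← pow_mul]
  rw [e, e2, add_pow_char_pow, t1, t2]
  refine Ideal.add_mem _ ?_ ?_
  · refine Ideal.mul_mem_left _ _ (Ideal.mem_map_of_mem _ ?_)
    exact Ideal.subset_span (by simp)
  · refine Ideal.mul_mem_left _ _ (Ideal.mem_map_of_mem _ ?_)
    exact Ideal.subset_span (by simp)

/-- the ideal `(x^(2Q), y^(2Q), z^Q)` of `B` -/
noncomputable def IQ (κ : k) (z₁ z₂ : B) (Q : ℕ) : Ideal B :=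
  (I0 k (2 * Q)).map (algebraMap (MvPolynomial (Fin 2) k) B) ⊔ Ideal.span {zel κ z₁ z₂ ^ Q}

instance finite_map_I0 (N : ℕ) : FiniteDimensional k
    (B ⧸ (I0 k N).map (algebraMap (MvPolynomial (Fin 2) k) B)) := finite_map _

instance finite_map_I0' (N : ℕ) (J : Ideal B) : FiniteDimensional k
    (B ⧸ ((I0 k N).map (algebraMap (MvPolynomial (Fin 2) k) B) ⊔ J)) := finite_quot_of_le le_sup_left

instance finite_IQ (κ : k) (z₁ z₂ : B) (Q : ℕ) : FiniteDimensional k (B ⧸ IQ κ z₁ z₂ Q) :=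
  finite_map_I0' _ _

variable (B) in
/-- the two-sided bound -/
lemma finrank_B_bound [Finite k] [CharP B p] {f n : ℕ} (hf : p ^ f = n + 2) (κ : k) {z₁ z₂ : B}
    (hz : ZData k (n + 2) z₁ z₂) (i j : ℕ) :
    Module.finrank k (B ⧸ IQ κ z₁ z₂ ((n + 2) ^ i * p ^ j)) ≤
      Module.finrank (MvPolynomial (Fin 2) k) B * ((p ^ j) ^ 2 * ell (n + 2) κ i) +
        Module.finrank (MvPolynomial (Fin 2) k) B * (4 * ((n + 2) ^ i * p ^ j) * p ^ j) ∧
    Module.finrank (MvPolynomial (Fin 2) k) B * ((p ^ j) ^ 2 * ell (n + 2) κ i) ≤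
      Module.finrank k (B ⧸ IQ κ z₁ z₂ ((n + 2) ^ i * p ^ j)) +
        Module.finrank (MvPolynomial (Fin 2) k) B * (4 * ((n + 2) ^ i * p ^ j) * p ^ j) := by
  set ι := algebraMap (MvPolynomial (Fin 2) k) B with hι
  set I := (I0 k (2 * (n + 2) ^ i * p ^ j)).map ι with hI
  have h1 := compare (k := k) I (zel κ z₁ z₂ ^ ((n + 2) ^ i * p ^ j))
    (ι (Kseq (n + 2) κ i ^ (p ^ j))) (ι ((X 0 * X 1) ^ (p ^ j))) (z_compare hf κ hz i j)
  have h2 := compare (k := k) I (ι (Kseq (n + 2) κ i ^ (p ^ j)))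
    (zel κ z₁ z₂ ^ ((n + 2) ^ i * p ^ j)) (ι ((X 0 * X 1) ^ (p ^ j))) (by
      rw [← neg_sub]
      exact (Ideal.neg_mem_iff _).2 (z_compare hf κ hz i j))
  have e1 : I ⊔ Ideal.span {ι (Kseq (n + 2) κ i ^ (p ^ j))} =
      (I0 k (2 * (n + 2) ^ i * p ^ j) ⊔ Ideal.span {Kseq (n + 2) κ i ^ (p ^ j)}).map ι := by
    rw [Ideal.map_sup, Ideal.map_span, Set.image_singleton]
  have e2 : I ⊔ Ideal.span {ι ((X 0 * X 1) ^ (p ^ j))} =
      (I0 k (2 * (n + 2) ^ i * p ^ j) ⊔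
        Ideal.span {((X 0 : MvPolynomial (Fin 2) k) * X 1) ^ (p ^ j)}).map ι := by
    rw [Ideal.map_sup, Ideal.map_span, Set.image_singleton]
  have e3 : I ⊔ Ideal.span {zel κ z₁ z₂ ^ ((n + 2) ^ i * p ^ j)} =
      IQ κ z₁ z₂ ((n + 2) ^ i * p ^ j) := by
    rw [IQ, hI, mul_assoc]
  have h3 := finrank_map (k := k) (B := B)
    (I0 k (2 * (n + 2) ^ i * p ^ j) ⊔ Ideal.span {Kseq (n + 2) κ i ^ (p ^ j)})
  have h4 := finrank_map (k := k) (B := B)
    (I0 k (2 * (n + 2) ^ i * p ^ j) ⊔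
      Ideal.span {((X 0 : MvPolynomial (Fin 2) k) * X 1) ^ (p ^ j)})
  have h5 := cross_le (k := k) (2 * (n + 2) ^ i * p ^ j) (p ^ j)
  rw [finrank_level, ← ell_eq] at h3
  rw [e1, e2, e3, h3, h4] at h1
  rw [e1, e2, e3, h3, h4] at h2
  have h6 : Module.finrank (MvPolynomial (Fin 2) k) B * Module.finrank k (MvPolynomial (Fin 2) k ⧸
      (I0 k (2 * (n + 2) ^ i * p ^ j) ⊔
        Ideal.span {((X 0 : MvPolynomial (Fin 2) k) * X 1) ^ (p ^ j)})) ≤
      Module.finrank (MvPolynomial (Fin 2) k) B * (4 * ((n + 2) ^ i * p ^ j) * p ^ j) := by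
    refine Nat.mul_le_mul_left _ (h5.trans (le_of_eq ?_))
    ring
  constructor <;> omega

/-- The Hilbert-Kunz limit for `I B`. -/
lemma B_lim [Finite k] [CharP B p] {f n : ℕ} (hf : p ^ f = n + 2) (κ : k) {z₁ z₂ : B}
    (hz : ZData k (n + 2) z₁ z₂) {L : ℝ}
    (hL : Tendsto (fun i => (ell (n + 2) κ i : ℝ) / (((n : ℝ) + 2) ^ i) ^ 2) atTop (𝓝 L)) :
    Tendsto (fun e => (Module.finrank k (B ⧸ IQ κ z₁ z₂ (p ^ e)) : ℝ) / ((p : ℝ) ^ e) ^ 2) atTop
      (𝓝 (Module.finrank (MvPolynomial (Fin 2) k) B * L)) := by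
  have hf0 : 0 < f := by
    rcases Nat.eq_zero_or_pos f with h | h
    · subst h
      simp at hf
    · exact h
  have hp : 0 < p := (Fact.out : p.Prime).pos
  have hp' : (0 : ℝ) < p := by exact_mod_cast hp
  set r := Module.finrank (MvPolynomial (Fin 2) k) B with hr
  have hdiv : Tendsto (fun e : ℕ => e / f) atTop atTop :=
    Nat.tendsto_div_const_atTop hf0.ne'
  have h1 : Tendsto (fun e : ℕ => (r : ℝ) * ((ell (n + 2) κ (e / f) : ℝ) /
      (((n : ℝ) + 2) ^ (e / f)) ^ 2)) atTop (𝓝 (r * L)) :=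
    (hL.comp hdiv).const_mul _
  have h2 : Tendsto (fun e : ℕ => 4 * (r : ℝ) * (1 / ((n : ℝ) + 2)) ^ (e / f)) atTop (𝓝 0) := by
    have h3 : Tendsto (fun i : ℕ => (1 / ((n : ℝ) + 2)) ^ i) atTop (𝓝 0) := by
      apply tendsto_pow_atTop_nhds_zero_of_lt_one (by positivity)
      rw [div_lt_one (by positivity)]
      have : (0 : ℝ) ≤ n := by positivity
      linarith
    have := (h3.comp hdiv).const_mul (4 * (r : ℝ))
    rwa [mul_zero] at this
  have h4 : Tendsto (fun e : ℕ => (Module.finrank k (B ⧸ IQ κ z₁ z₂ (p ^ e)) : ℝ) /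
      ((p : ℝ) ^ e) ^ 2 - (r : ℝ) * ((ell (n + 2) κ (e / f) : ℝ) /
      (((n : ℝ) + 2) ^ (e / f)) ^ 2)) atTop (𝓝 0) := by
    refine squeeze_zero_norm (fun e => ?_) h2
    have he : p ^ e = (n + 2) ^ (e / f) * p ^ (e % f) := by
      rw [← hf, ← pow_mul, ← pow_add, Nat.div_add_mod]
    have he' : (p : ℝ) ^ e = ((n : ℝ) + 2) ^ (e / f) * (p : ℝ) ^ (e % f) := by exact_mod_cast he
    obtain ⟨b1, b2⟩ := finrank_B_bound B hf κ hz (e / f) (e % f)
    rw [← he, ← hr] at b1 b2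
    generalize Module.finrank k (B ⧸ IQ κ z₁ z₂ (p ^ e)) = D at b1 b2 ⊢
    generalize ell (n + 2) κ (e / f) = l at b1 b2 ⊢
    have b1' : (D : ℝ) ≤ r * (((p : ℝ) ^ (e % f)) ^ 2 * l) +
        r * (4 * (p : ℝ) ^ e * (p : ℝ) ^ (e % f)) := by exact_mod_cast b1
    have b2' : (r : ℝ) * (((p : ℝ) ^ (e % f)) ^ 2 * l) ≤ D +
        r * (4 * (p : ℝ) ^ e * (p : ℝ) ^ (e % f)) := by exact_mod_cast b2
    rw [he'] at b1' b2' ⊢
    have hq : (0 : ℝ) < ((n : ℝ) + 2) ^ (e / f) := by positivity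
    have hu : (0 : ℝ) < (p : ℝ) ^ (e % f) := by positivity
    rw [one_div, inv_pow, Real.norm_eq_abs]
    generalize ((n : ℝ) + 2) ^ (e / f) = q at *
    generalize (p : ℝ) ^ (e % f) = u at *
    have e1 : (D : ℝ) / (q * u) ^ 2 - r * (l / q ^ 2) = (D - r * (u ^ 2 * l)) / (q * u) ^ 2 := by
      field_simp
    have e2 : 4 * (r : ℝ) * q⁻¹ = (r * (4 * (q * u) * u)) / (q * u) ^ 2 := by
      field_simp
    rw [e1, e2, abs_div, abs_of_pos (show (0 : ℝ) < (q * u) ^ 2 by positivity)]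
    apply div_le_div_of_nonneg_right _ (by positivity)
    rw [abs_le]
    constructor <;> linarith
  have := h4.add h1
  simpa using this

end BLim

end Pool.Agent.H956R2.HK
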