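import Mathlib
import Pool.Agent.H956R2.HK.BSide

set_option autoImplicit false

namespace Pool.Agent.H956R2.HK

open Polynomial

universe u

section Step

variable {R : Type u} [CommRing R] [Nontrivial R]

/-- the defining polynomial -/
noncomputable def gpol (n : ℕ) (a b : R) : R[X] := X ^ (n + 2) + (-(C a * X + C b))

omit [Nontrivial R] in
lemma gpol_monic (n : ℕ) (a b : R) : (gpol n a b).Monic := by
  apply monic_X_pow_add
  rw [degree_neg]
  refine (degree_add_le _ _).trans_lt (max_lt ?_ ?_)
  · refine (degree_C_mul_X_le a).trans_lt ?_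
    exact_mod_cast (by omega : 1 < n + 2)
  · refine degree_C_le.trans_lt ?_
    exact_mod_cast (by omega : 0 < n + 2)

lemma gpol_natDegree (n : ℕ) (a b : R) : (gpol n a b).natDegree = n + 2 := by
  unfold gpol
  rw [natDegree_add_eq_left_of_degree_lt]
  · exact natDegree_X_pow _
  · rw [degree_neg, degree_X_pow]
    refine (degree_add_le _ _).trans_lt (max_lt ?_ ?_)
    · refine (degree_C_mul_X_le a).trans_lt ?_
      exact_mod_cast (by omega : 1 < n + 2)
    · refine degree_C_le.trans_lt ?_
      exact_mod_cast (by omega : 0 < n + 2)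

/-- adjoining a root -/
abbrev Adj (n : ℕ) (a b : R) : Type u := AdjoinRoot (gpol n a b)

instance (n : ℕ) (a b : R) : Module.Free R (Adj n a b) := (gpol_monic n a b).free_adjoinRoot
instance (n : ℕ) (a b : R) : Module.Finite R (Adj n a b) := (gpol_monic n a b).finite_adjoinRoot

lemma adj_finrank (n : ℕ) (a b : R) : Module.finrank R (Adj n a b) = n + 2 := by
  rw [(AdjoinRoot.powerBasis' (gpol_monic n a b)).finrank, AdjoinRoot.powerBasis'_dim,
    gpol_natDegree]

instance (n : ℕ) (a b : R) : Nontrivial (Adj n a b) := by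
  apply Module.nontrivial_of_finrank_pos (R := R)
  rw [adj_finrank]
  omega

omit [Nontrivial R] in
lemma adj_root (n : ℕ) (a b : R) : (AdjoinRoot.root (gpol n a b)) ^ (n + 2) =
    algebraMap R (Adj n a b) a * AdjoinRoot.root (gpol n a b) + algebraMap R (Adj n a b) b := by
  have h := AdjoinRoot.eval₂_root (gpol n a b)
  rw [gpol, eval₂_add, eval₂_neg, eval₂_add, eval₂_mul, eval₂_C, eval₂_C, eval₂_X_pow,
    eval₂_X] at h
  rw [← gpol] at h
  exact add_neg_eq_zero.1 h

end Step

/-- The ring `B`. -/
theorem exists_B (k : Type u) [Field k] (n : ℕ) :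
    ∃ (B : Type u) (_ : CommRing B) (_ : Algebra k B) (_ : Algebra (MvPolynomial (Fin 2) k) B)
      (_ : IsScalarTower k (MvPolynomial (Fin 2) k) B)
      (_ : Module.Free (MvPolynomial (Fin 2) k) B) (_ : Module.Finite (MvPolynomial (Fin 2) k) B)
      (_ : Nontrivial B) (z₁ z₂ : B),
      ZData k (n + 2) z₁ z₂ ∧ Module.finrank (MvPolynomial (Fin 2) k) B = (n + 2) * (n + 2) := by
  let A := MvPolynomial (Fin 2) k
  let x : A := MvPolynomial.X 0
  let y : A := MvPolynomial.X 1
  let B₁ := Adj n (x ^ (n + 1)) (x ^ (n + 1) * y)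
  let a₂ : B₁ := algebraMap A B₁ (y ^ (n + 1))
  let b₂ : B₁ := algebraMap A B₁ (y ^ (n + 1) * x)
  let B := Adj n a₂ b₂
  have h1 := adj_root n (x ^ (n + 1)) (x ^ (n + 1) * y)
  have h2 := adj_root n a₂ b₂
  have : IsScalarTower A B₁ B := inferInstance
  have hfree : Module.Free A B := Module.Free.trans (S := B₁)
  have hfin : Module.Finite A B := Module.Finite.trans B₁ B
  refine ⟨B, inferInstance, inferInstance, inferInstance, inferInstance, hfree, hfin,
    inferInstance, algebraMap B₁ B (AdjoinRoot.root _), AdjoinRoot.root _, ⟨?_, ?_⟩, ?_⟩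
  · rw [← map_pow, h1, show n + 2 - 1 = n + 1 by omega]
    rw [map_add, map_mul, ← IsScalarTower.algebraMap_apply, ← IsScalarTower.algebraMap_apply,
      map_mul, map_pow]
    ring
  · have ea : algebraMap B₁ B a₂ = algebraMap A B (y ^ (n + 1)) :=
      (IsScalarTower.algebraMap_apply A B₁ B _).symm
    have eb : algebraMap B₁ B b₂ = algebraMap A B (y ^ (n + 1) * x) :=
      (IsScalarTower.algebraMap_apply A B₁ B _).symm
    rw [h2, show n + 2 - 1 = n + 1 by omega, ea, eb, map_mul, map_pow]
    ring
  · rw [← Module.finrank_mul_finrank A B₁ B, adj_finrank, adj_finrank]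

end Pool.Agent.H956R2.HK
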