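import Mathlib
import Pool.Agent.H956R2.HK.BSide

set_option autoImplicit false

namespace Pool.Agent.H956R2.HK

open MvPolynomial

section FrobPow

variable {R : Type*} [CommRing R]

/-- The ideal generated by the `q`-th powers of the elements of `I`. -/
def frobPow (I : Ideal R) (q : ℕ) : Ideal R := Ideal.span ((fun x : R => x ^ q) '' (I : Set R))

variable {p : ℕ} [Fact p.Prime] [CharP R p]

lemma frobPow_eq_map (I : Ideal R) (e : ℕ) :
    frobPow I (p ^ e) = I.map (iterateFrobenius R p e) := rfl

lemma frobPow_map {S : Type*} [CommRing S] [CharP S p] (g : R →+* S) (I : Ideal R) (e : ℕ) :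
    frobPow (I.map g) (p ^ e) = (frobPow I (p ^ e)).map g := by
  rw [frobPow_eq_map, frobPow_eq_map, Ideal.map_map, Ideal.map_map,
    RingHom.iterateFrobenius_comm]

lemma frobPow_span (G : Set R) (e : ℕ) :
    frobPow (Ideal.span G) (p ^ e) = Ideal.span ((fun x : R => x ^ (p ^ e)) '' G) := by
  rw [frobPow_eq_map, Ideal.map_span]
  rfl

lemma frobPow_sup (I J : Ideal R) (e : ℕ) :
    frobPow (I ⊔ J) (p ^ e) = frobPow I (p ^ e) ⊔ frobPow J (p ^ e) := by
  rw [frobPow_eq_map, frobPow_eq_map, frobPow_eq_map, Ideal.map_sup]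

end FrobPow

section Ext

variable {k B : Type*} [Field k] [CommRing B] [Algebra k B]

variable (k) in
/-- coefficient map -/
noncomputable def coefMap (J : Ideal B) (m Q : ℕ) :
    MvPolynomial (Fin m) B →ₗ[k] ((Fin m → Fin Q) → B ⧸ J) where
  toFun f a := Ideal.Quotient.mk J (coeff (Finsupp.equivFunOnFinite.symm fun i => (a i : ℕ)) f)
  map_add' f g := by
    funext a
    rw [coeff_add, map_add]
    rfl
  map_smul' c f := by
    funext a
    rw [coeff_smul, RingHom.id_apply, Pi.smul_apply]
    exact map_smul (Ideal.Quotient.mkₐ k J) c _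

lemma coefMap_apply (J : Ideal B) (m Q : ℕ) (f : MvPolynomial (Fin m) B) (a : Fin m → Fin Q) :
    coefMap k J m Q f a =
      Ideal.Quotient.mk J (coeff (Finsupp.equivFunOnFinite.symm fun i => (a i : ℕ)) f) := rfl

/-- the ideal `(J, t_1^Q, ..., t_m^Q)` -/
noncomputable def EQ (J : Ideal B) (m Q : ℕ) : Ideal (MvPolynomial (Fin m) B) :=
  J.map (C : B →+* MvPolynomial (Fin m) B) ⊔
    Ideal.span (Set.range fun i : Fin m => (X i : MvPolynomial (Fin m) B) ^ Q)

lemma coefMap_surj (J : Ideal B) (m Q : ℕ) : Function.Surjective (coefMap k J m Q) := by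
  classical
  intro v
  choose w hw using fun a => Ideal.Quotient.mk_surjective (v a)
  refine ⟨∑ a : Fin m → Fin Q,
    monomial (Finsupp.equivFunOnFinite.symm fun i => (a i : ℕ)) (w a), ?_⟩
  funext b
  rw [coefMap_apply, coeff_sum, ← hw b]
  congr 1
  rw [Finset.sum_eq_single b]
  · rw [coeff_monomial, if_pos rfl]
  · intro a _ hab
    rw [coeff_monomial, if_neg]
    intro h
    apply hab
    have h' := Finsupp.equivFunOnFinite.symm.injective h
    funext i
    exact Fin.ext (congrFun h' i)
  · intro h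
    exact absurd (Finset.mem_univ _) h

lemma coefMap_ker (J : Ideal B) (m Q : ℕ) (f : MvPolynomial (Fin m) B) :
    coefMap k J m Q f = 0 ↔ f ∈ EQ J m Q := by
  constructor
  · intro h
    rw [f.as_sum]
    refine Ideal.sum_mem _ fun d _ => ?_
    by_cases hd : ∀ i, d i < Q
    · have h1 := congrFun h (fun i => ⟨d i, hd i⟩)
      rw [coefMap_apply, Pi.zero_apply, Ideal.Quotient.eq_zero_iff_mem] at h1
      have h2 : (Finsupp.equivFunOnFinite.symm fun i => d i) = d := by
        ext i
        rfl
      simp only [h2] at h1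
      apply Ideal.mem_sup_left
      rw [show monomial d (coeff d f) = C (coeff d f) * monomial d 1 by
        rw [C_mul_monomial, mul_one]]
      exact Ideal.mul_mem_right _ _ (Ideal.mem_map_of_mem _ h1)
    · push Not at hd
      obtain ⟨i, hi⟩ := hd
      apply Ideal.mem_sup_right
      have h3 : d = (d - Finsupp.single i Q) + Finsupp.single i Q := by
        ext j
        by_cases hj : j = i
        · subst hj
          simp
          omega
        · simp [Ne.symm hj]
      have h4 : monomial d (coeff d f) =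
          monomial (d - Finsupp.single i Q) (coeff d f) * X i ^ Q := by
        rw [X_pow_eq_monomial, monomial_mul, mul_one, ← h3]
      rw [h4]
      exact Ideal.mul_mem_left _ _ (Ideal.subset_span ⟨i, rfl⟩)
  · intro h
    obtain ⟨g, hg, g', hg', rfl⟩ := Submodule.mem_sup.1 h
    funext a
    rw [coefMap_apply, Pi.zero_apply, Ideal.Quotient.eq_zero_iff_mem, coeff_add]
    refine J.add_mem (MvPolynomial.mem_map_C_iff.1 hg _) ?_
    obtain ⟨c, rfl⟩ := Ideal.mem_span_range_iff_exists_fun.1 hg'
    rw [coeff_sum]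
    refine J.sum_mem fun i _ => ?_
    rw [X_pow_eq_monomial, coeff_mul_monomial', if_neg]
    · exact J.zero_mem
    · intro hle
      have := hle i
      rw [Finsupp.single_eq_same] at this
      have h5 := (a i).2
      simp at this
      omega

lemma finite_EQ (J : Ideal B) [FiniteDimensional k (B ⧸ J)] (m Q : ℕ) :
    FiniteDimensional k (MvPolynomial (Fin m) B ⧸ EQ J m Q) :=
  finite_quot_of_ker _ (coefMap k J m Q) (coefMap_surj J m Q) (coefMap_ker J m Q)

lemma finrank_EQ (J : Ideal B) [FiniteDimensional k (B ⧸ J)] (m Q : ℕ) :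
    Module.finrank k (MvPolynomial (Fin m) B ⧸ EQ J m Q) =
      Q ^ m * Module.finrank k (B ⧸ J) := by
  rw [finrank_quot_of_ker _ (coefMap k J m Q) (coefMap_surj J m Q) (coefMap_ker J m Q),
    Module.finrank_pi_fintype, Finset.sum_const, Finset.card_univ, smul_eq_mul,
    Fintype.card_fun, Fintype.card_fin, Fintype.card_fin]

lemma frobPow_EQ {p : ℕ} [Fact p.Prime] [CharP B p] (J : Ideal B) (m e : ℕ) :
    frobPow (EQ J m 1) (p ^ e) = EQ (frobPow J (p ^ e)) m (p ^ e) := by
  rw [EQ, EQ, frobPow_sup, frobPow_map, frobPow_span]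
  congr 2
  ext y
  simp only [pow_one, Set.mem_image, Set.mem_range, exists_exists_eq_and]

end Ext

section BB

variable {k B : Type*} [Field k] [CommRing B] [Algebra k B]
  [Algebra (MvPolynomial (Fin 2) k) B] [IsScalarTower k (MvPolynomial (Fin 2) k) B]
  [Module.Free (MvPolynomial (Fin 2) k) B] [Module.Finite (MvPolynomial (Fin 2) k) B]
  {p : ℕ} [Fact p.Prime] [CharP k p]

omit [Algebra k B] [IsScalarTower k (MvPolynomial (Fin 2) k) B]
  [Module.Free (MvPolynomial (Fin 2) k) B] [Module.Finite (MvPolynomial (Fin 2) k) B] in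
lemma frobPow_IQ [CharP B p] (κ : k) (z₁ z₂ : B) (e : ℕ) :
    frobPow (IQ κ z₁ z₂ 1) (p ^ e) = IQ κ z₁ z₂ (p ^ e) := by
  have : CharP (MvPolynomial (Fin 2) k) p := inferInstance
  rw [IQ, IQ, frobPow_sup, frobPow_map, I0, I0, frobPow_span, frobPow_span]
  rw [Set.image_insert_eq, Set.image_singleton, Set.image_singleton, ← pow_mul, ← pow_mul,
    ← pow_mul, mul_one, one_mul]

end BB

end Pool.Agent.H956R2.HK
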