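import Mathlib
import Pool.Agent.H956R2.HK.MvExt

set_option autoImplicit false

namespace Pool.Agent.H956R2.HK

section KI

variable {k B : Type*} [Field k] [CommRing B] [Algebra k B]

variable (k) in
/-- the subalgebra `k + I` -/
def kI (I : Ideal B) : Subalgebra k B :=
  (⊥ : Subalgebra k (B ⧸ I)).comap (Ideal.Quotient.mkₐ k I)

lemma mem_kI {I : Ideal B} {b : B} : b ∈ kI k I ↔ ∃ c : k, b - algebraMap k B c ∈ I := by
  rw [kI, Subalgebra.mem_comap, Algebra.mem_bot, Set.mem_range]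
  constructor
  · rintro ⟨c, hc⟩
    refine ⟨c, ?_⟩
    rw [← Ideal.Quotient.eq_zero_iff_mem, map_sub, sub_eq_zero]
    exact hc.symm
  · rintro ⟨c, hc⟩
    refine ⟨c, ?_⟩
    rw [← Ideal.Quotient.eq_zero_iff_mem, map_sub, sub_eq_zero] at hc
    exact hc.symm

lemma mem_kI_of_mem {I : Ideal B} {b : B} (hb : b ∈ I) : b ∈ kI k I :=
  mem_kI.2 ⟨0, by rwa [map_zero, sub_zero]⟩

variable (k) in
/-- the maximal ideal of `k + I` -/
def mI (I : Ideal B) : Ideal (kI k I) := I.comap (algebraMap (kI k I) B)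

lemma mem_mI {I : Ideal B} {r : kI k I} : r ∈ mI k I ↔ (r : B) ∈ I := Iff.rfl

lemma mI_residue {I : Ideal B} (r : kI k I) : ∃ c : k, r - algebraMap k (kI k I) c ∈ mI k I := by
  obtain ⟨c, hc⟩ := mem_kI.1 r.2
  exact ⟨c, hc⟩

lemma mI_maximal {I : Ideal B} (hI : I ≠ ⊤) : (mI k I).IsMaximal := by
  rw [Ideal.isMaximal_iff]
  refine ⟨fun h => hI ((Ideal.eq_top_iff_one _).2 h), ?_⟩
  intro J x hJ hx hxJ
  obtain ⟨c, hc⟩ := mI_residue x
  have hc0 : c ≠ 0 := by
    rintro rfl
    rw [map_zero, sub_zero] at hc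
    exact hx hc
  have h1 : algebraMap k (kI k I) c ∈ J := by
    have := J.sub_mem hxJ (hJ hc)
    rwa [sub_sub_cancel] at this
  have h2 := J.mul_mem_left (algebraMap k (kI k I) c⁻¹) h1
  rwa [← map_mul, inv_mul_cancel₀ hc0, map_one] at h2

lemma exists_lift (I : Ideal B) [FiniteDimensional k (B ⧸ I)] :
    ∃ e : Fin (Module.finrank k (B ⧸ I)) → B, ∀ b : B,
      ∃ a : Fin (Module.finrank k (B ⧸ I)) → k, b - ∑ j, a j • e j ∈ I := by
  let bas := Module.finBasis k (B ⧸ I)
  choose e he using fun j => Ideal.Quotient.mk_surjective (bas j)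
  refine ⟨e, fun b => ⟨fun j => bas.repr (Ideal.Quotient.mk I b) j, ?_⟩⟩
  rw [← Ideal.Quotient.eq_zero_iff_mem, map_sub, map_sum, sub_eq_zero]
  conv_lhs => rw [← bas.sum_repr (Ideal.Quotient.mk I b)]
  refine Finset.sum_congr rfl fun j _ => ?_
  rw [← he j]
  exact (map_smul (Ideal.Quotient.mkₐ k I) _ _).symm

lemma kI_finite (I : Ideal B) [FiniteDimensional k (B ⧸ I)] : Module.Finite (kI k I) B := by
  classical
  obtain ⟨e, he⟩ := exists_lift (k := k) I
  refine ⟨⟨insert 1 (Finset.univ.image e), ?_⟩⟩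
  rw [eq_top_iff]
  intro b _
  obtain ⟨a, ha⟩ := he b
  rw [show b = (b - ∑ j, a j • e j) + ∑ j, a j • e j by ring]
  refine Submodule.add_mem _ ?_ (Submodule.sum_mem _ fun j _ => ?_)
  · have h1 : b - ∑ j, a j • e j = (⟨_, mem_kI_of_mem ha⟩ : kI k I) • (1 : B) := by
      rw [Algebra.smul_def, mul_one]
      rfl
    rw [h1]
    exact Submodule.smul_mem _ _ (Submodule.subset_span (by simp))
  · have h2 : a j • e j = (algebraMap k (kI k I) (a j)) • e j := by
      rw [Algebra.smul_def, Algebra.smul_def]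
      rfl
    rw [h2]
    exact Submodule.smul_mem _ _ (Submodule.subset_span (by simp))

lemma kI_finiteType (I : Ideal B) [FiniteDimensional k (B ⧸ I)] [h : Algebra.FiniteType k B] :
    Algebra.FiniteType k (kI k I) := by
  have := kI_finite (k := k) I
  refine ⟨fg_of_fg_of_fg k (kI k I) B h.out this.fg_top ?_⟩
  exact Subtype.val_injective

lemma frobPow_mI_le (I : Ideal B) (Q : ℕ) :
    frobPow (mI k I) Q ≤ (frobPow I Q).comap (kI k I).val := by
  rw [frobPow, Ideal.span_le]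
  rintro _ ⟨x, hx, rfl⟩
  exact Ideal.subset_span ⟨(x : B), hx, rfl⟩

lemma mul_mem_frobPow_mI {I : Ideal B} {Q : ℕ} {g b : B} (hg : g ∈ I) (hb : b ∈ I)
    (h : b * g ^ Q ∈ kI k I) : (⟨b * g ^ Q, h⟩ : kI k I) ∈ frobPow (mI k I) Q := by
  have h1 : (⟨b * g ^ Q, h⟩ : kI k I) =
      (⟨b, mem_kI_of_mem hb⟩ : kI k I) * (⟨g, mem_kI_of_mem hg⟩ : kI k I) ^ Q := by
    apply Subtype.ext
    simp
  rw [h1]
  exact Ideal.mul_mem_left _ _ (Ideal.subset_span ⟨⟨g, mem_kI_of_mem hg⟩, hg, rfl⟩)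

/-- Comparison of colengths in `k + I` and in `B`. -/
theorem kI_compare (I : Ideal B) [FiniteDimensional k (B ⧸ I)] {N : ℕ} (g : Fin N → B)
    (hg : ∀ i, g i ∈ I) {Q : ℕ} (hQ : Q ≠ 0)
    (hspan : frobPow I Q = Ideal.span (Set.range fun i => g i ^ Q))
    [FiniteDimensional k (B ⧸ frobPow I Q)] :
    FiniteDimensional k (kI k I ⧸ frobPow (mI k I) Q) ∧
    Module.finrank k (kI k I ⧸ frobPow (mI k I) Q) ≤
      Module.finrank k (B ⧸ frobPow I Q) + N * Module.finrank k (B ⧸ I) ∧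
    Module.finrank k (B ⧸ frobPow I Q) ≤
      Module.finrank k (kI k I ⧸ frobPow (mI k I) Q) + Module.finrank k (B ⧸ I) := by
  classical
  set c := Module.finrank k (B ⧸ I) with hc
  obtain ⟨e, he⟩ := exists_lift (k := k) I
  let ψ : (kI k I ⧸ frobPow (mI k I) Q) →ₗ[k] (B ⧸ frobPow I Q) :=
    (Ideal.quotientMapₐ (frobPow I Q) (kI k I).val (frobPow_mI_le I Q)).toLinearMap
  have hψ : ∀ r : kI k I, ψ (Ideal.Quotient.mk _ r) = Ideal.Quotient.mk _ (r : B) := fun r => rfl
  have hgQ : ∀ i, g i ^ Q ∈ I := fun i => I.pow_mem_of_mem (hg i) _ (Nat.pos_of_ne_zero hQ)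
  have hIQ : frobPow I Q ≤ I := by
    rw [hspan, Ideal.span_le]
    rintro _ ⟨i, rfl⟩
    exact hgQ i
  -- the kernel
  let w : Fin N × Fin c → (kI k I ⧸ frobPow (mI k I) Q) := fun ij =>
    Ideal.Quotient.mk _ ⟨e ij.2 * g ij.1 ^ Q, mem_kI_of_mem (I.mul_mem_left _ (hgQ ij.1))⟩
  have hker : LinearMap.ker ψ ≤ Submodule.span k (Set.range w) := by
    intro x hx
    obtain ⟨r, rfl⟩ := Ideal.Quotient.mk_surjective x
    rw [LinearMap.mem_ker, hψ, Ideal.Quotient.eq_zero_iff_mem, hspan,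
      Ideal.mem_span_range_iff_exists_fun] at hx
    obtain ⟨b, hb⟩ := hx
    choose a ha using fun i => he (b i)
    have h1 : r = ∑ i, (∑ j, a i j • (⟨e j * g i ^ Q, mem_kI_of_mem (I.mul_mem_left _ (hgQ i))⟩ :
        kI k I) + ⟨(b i - ∑ j, a i j • e j) * g i ^ Q,
          mem_kI_of_mem (I.mul_mem_left _ (hgQ i))⟩) := by
      apply Subtype.ext
      rw [← hb]
      simp only [AddSubmonoidClass.coe_finsetSum, Subalgebra.coe_add, Subalgebra.coe_smul]
      refine Finset.sum_congr rfl fun i _ => ?_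
      rw [sub_mul, Finset.sum_mul]
      simp only [smul_mul_assoc]
      ring
    rw [h1, map_sum]
    refine Submodule.sum_mem _ fun i _ => ?_
    rw [map_add, map_sum, Ideal.Quotient.eq_zero_iff_mem.2 (mul_mem_frobPow_mI (hg i) (ha i) _),
      add_zero]
    refine Submodule.sum_mem _ fun j _ => ?_
    have h2 : Ideal.Quotient.mk (frobPow (mI k I) Q) (a i j •
        (⟨e j * g i ^ Q, mem_kI_of_mem (I.mul_mem_left _ (hgQ i))⟩ : kI k I)) = a i j • w (i, j) :=
      map_smul (Ideal.Quotient.mkₐ k _) _ _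
    rw [h2]
    exact Submodule.smul_mem _ _ (Submodule.subset_span ⟨(i, j), rfl⟩)
  have hsfin : FiniteDimensional k (Submodule.span k (Set.range w)) :=
    FiniteDimensional.span_of_finite k (Set.finite_range w)
  have hkfin : FiniteDimensional k (LinearMap.ker ψ) := Submodule.finiteDimensional_of_le hker
  have hkle : Module.finrank k (LinearMap.ker ψ) ≤ N * c := by
    refine (Submodule.finrank_mono hker).trans ?_
    have := finrank_range_le_card (R := k) w
    rw [Fintype.card_prod, Fintype.card_fin, Fintype.card_fin] at this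
    exact this
  have hqfin : FiniteDimensional k ((kI k I ⧸ frobPow (mI k I) Q) ⧸ LinearMap.ker ψ) :=
    Module.Finite.equiv ψ.quotKerEquivRange.symm
  have hfin : FiniteDimensional k (kI k I ⧸ frobPow (mI k I) Q) :=
    Module.Finite.of_submodule_quotient (LinearMap.ker ψ)
  have hrn := LinearMap.finrank_range_add_finrank_ker ψ
  have hrle := Submodule.finrank_le (LinearMap.range ψ)
  -- the cokernel
  let v : Fin c → (B ⧸ frobPow I Q) := fun j => Ideal.Quotient.mk _ (e j)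
  have htop : (⊤ : Submodule k (B ⧸ frobPow I Q)) ≤
      LinearMap.range ψ ⊔ Submodule.span k (Set.range v) := by
    intro x _
    obtain ⟨b, rfl⟩ := Ideal.Quotient.mk_surjective x
    obtain ⟨a, ha⟩ := he b
    rw [show b = (b - ∑ j, a j • e j) + ∑ j, a j • e j by ring, map_add]
    refine Submodule.add_mem_sup ?_ ?_
    · exact ⟨Ideal.Quotient.mk _ ⟨_, mem_kI_of_mem ha⟩, hψ _⟩
    · rw [map_sum]
      refine Submodule.sum_mem _ fun j _ => ?_
      have h2 : Ideal.Quotient.mk (frobPow I Q) (a j • e j) = a j • v j :=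
        map_smul (Ideal.Quotient.mkₐ k _) _ _
      rw [h2]
      exact Submodule.smul_mem _ _ (Submodule.subset_span ⟨j, rfl⟩)
  have h3 := Submodule.finrank_mono htop
  rw [finrank_top] at h3
  have h4 := Submodule.finrank_add_le_finrank_add_finrank (LinearMap.range ψ)
    (Submodule.span k (Set.range v))
  have h5 : Module.finrank k (Submodule.span k (Set.range v)) ≤ c := by
    have := finrank_range_le_card (R := k) v
    rwa [Fintype.card_fin] at this
  refine ⟨hfin, ?_, ?_⟩ <;> omega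

end KI

end Pool.Agent.H956R2.HK
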