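import Mathlib
import Pool.Agent.H956R2.HK.MvExt

set_option autoImplicit false

namespace Pool.Agent.H956R2.HK

section LemL

variable {S : Type*} [CommRing S]

lemma length_quot_le_of_le {J J' : Ideal S} (h : J ≤ J') :
    Module.length S (S ⧸ J') ≤ Module.length S (S ⧸ J) :=
  Module.length_le_of_surjective (Submodule.factor h) (Submodule.factor_surjective h)

lemma length_step (J : Ideal S) (a : S) (Q : ℕ) :
    Module.length S (S ⧸ (J ⊔ Ideal.span {a ^ (Q + 1)})) ≤
      Module.length S (S ⧸ (J ⊔ Ideal.span {a ^ Q})) +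
        Module.length S (S ⧸ (J ⊔ Ideal.span {a})) := by
  have hle : J ⊔ Ideal.span {a ^ (Q + 1)} ≤ J ⊔ Ideal.span {a ^ Q} := by
    refine sup_le_sup_left ?_ _
    rw [Ideal.span_singleton_le_span_singleton]
    exact pow_dvd_pow _ (Nat.le_succ _)
  let g : (S ⧸ (J ⊔ Ideal.span {a ^ (Q + 1)})) →ₗ[S] (S ⧸ (J ⊔ Ideal.span {a ^ Q})) :=
    Submodule.factor hle
  have hg : Function.Surjective g := Submodule.factor_surjective hle
  have h1 := Module.length_eq_add_of_exact (LinearMap.ker g).subtype g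
    (Submodule.subtype_injective _) hg (LinearMap.exact_subtype_ker_map g)
  let φ : S →ₗ[S] (S ⧸ (J ⊔ Ideal.span {a ^ (Q + 1)})) :=
    (Submodule.mkQ (J ⊔ Ideal.span {a ^ (Q + 1)})).comp (LinearMap.mulLeft S (a ^ Q))
  have hφ : ∀ s, φ s = Submodule.Quotient.mk (a ^ Q * s) := fun s => rfl
  have hker : J ⊔ Ideal.span {a} ≤ LinearMap.ker φ := by
    refine sup_le ?_ ?_
    · intro s hs
      rw [LinearMap.mem_ker, hφ, Submodule.Quotient.mk_eq_zero]
      exact Ideal.mem_sup_left (J.mul_mem_left _ hs)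
    · rw [Ideal.span_singleton_le_iff_mem]
      change a ∈ LinearMap.ker φ
      rw [LinearMap.mem_ker, hφ, Submodule.Quotient.mk_eq_zero, ← pow_succ]
      exact Ideal.mem_sup_right (Ideal.mem_span_singleton_self _)
  let χ : (S ⧸ (J ⊔ Ideal.span {a})) →ₗ[S] (S ⧸ (J ⊔ Ideal.span {a ^ (Q + 1)})) :=
    Submodule.liftQ _ φ hker
  have hχ : LinearMap.ker g ≤ LinearMap.range χ := by
    intro x hx
    obtain ⟨s, rfl⟩ := Submodule.Quotient.mk_surjective _ x
    rw [LinearMap.mem_ker] at hx
    have hx' : s ∈ J ⊔ Ideal.span {a ^ Q} := (Submodule.Quotient.mk_eq_zero _).1 hx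
    obtain ⟨j, hj, w, hw, rfl⟩ := Submodule.mem_sup.1 hx'
    obtain ⟨c, rfl⟩ := Ideal.mem_span_singleton'.1 hw
    refine ⟨Submodule.Quotient.mk c, ?_⟩
    change φ c = _
    rw [hφ]
    apply (Submodule.Quotient.eq _).2
    rw [show a ^ Q * c - (j + c * a ^ Q) = -j by ring]
    exact Ideal.mem_sup_left (J.neg_mem hj)
  have h2 : Module.length S (LinearMap.ker g) ≤ Module.length S (LinearMap.range χ) :=
    Module.length_le_of_injective (Submodule.inclusion hχ) (Submodule.inclusion_injective hχ)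
  have h3 : Module.length S (LinearMap.range χ) ≤ Module.length S (S ⧸ (J ⊔ Ideal.span {a})) :=
    Module.length_le_of_surjective χ.rangeRestrict χ.surjective_rangeRestrict
  rw [h1, add_comm]
  exact add_le_add le_rfl (h2.trans h3)

lemma length_pow (J : Ideal S) (a : S) (Q : ℕ) :
    Module.length S (S ⧸ (J ⊔ Ideal.span {a ^ Q})) ≤
      Q * Module.length S (S ⧸ (J ⊔ Ideal.span {a})) := by
  induction Q with
  | zero =>
    have : J ⊔ Ideal.span {a ^ 0} = ⊤ := by
      rw [pow_zero, Ideal.span_singleton_one, sup_top_eq]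
    rw [this]
    have : Subsingleton (S ⧸ (⊤ : Ideal S)) := Ideal.Quotient.subsingleton_iff.2 rfl
    rw [Module.length_eq_zero]
    exact zero_le
  | succ Q ih =>
    refine (length_step J a Q).trans ?_
    rw [Nat.cast_succ, add_mul, one_mul]
    exact add_le_add ih le_rfl

lemma length_pows (T : Finset S) (Q : ℕ) (J : Ideal S) :
    Module.length S (S ⧸ (J ⊔ Ideal.span ((fun x : S => x ^ Q) '' (T : Set S)))) ≤
      (Q : ℕ∞) ^ T.card * Module.length S (S ⧸ (J ⊔ Ideal.span (T : Set S))) := by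
  classical
  induction T using Finset.induction_on generalizing J with
  | empty =>
    rw [Finset.coe_empty, Set.image_empty, Finset.card_empty, pow_zero, one_mul]
  | insert a T ha ih =>
    rw [Finset.card_insert_of_notMem ha, Finset.coe_insert, Set.image_insert_eq,
      Ideal.span_insert, Ideal.span_insert, ← sup_assoc, pow_succ]
    refine (ih (J ⊔ Ideal.span {a ^ Q})).trans ?_
    rw [mul_assoc]
    refine mul_le_mul' le_rfl ?_
    have e1 : J ⊔ Ideal.span {a ^ Q} ⊔ Ideal.span (T : Set S) =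
        (J ⊔ Ideal.span (T : Set S)) ⊔ Ideal.span {a ^ Q} := sup_right_comm _ _ _
    have e2 : J ⊔ (Ideal.span {a} ⊔ Ideal.span (T : Set S)) =
        (J ⊔ Ideal.span (T : Set S)) ⊔ Ideal.span {a} := by
      rw [← sup_assoc, sup_right_comm]
    rw [e1, e2]
    exact length_pow _ a Q

end LemL

section LocalDim

variable {S : Type*} [CommRing S] [IsLocalRing S]

open IsLocalRing

/-- If the maximal ideal is minimal over `(T)`, the Hilbert-Kunz lengths are `O(Q^|T|)`. -/
lemma length_frobPow_le (T : Finset S) (hT : (T : Set S) ⊆ maximalIdeal S) (Q : ℕ) :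
    Module.length S (S ⧸ frobPow (maximalIdeal S) Q) ≤
      (Q : ℕ∞) ^ T.card * Module.length S (S ⧸ (Ideal.span (T : Set S))) := by
  have h := length_pows T Q (⊥ : Ideal S)
  rw [bot_sup_eq, bot_sup_eq] at h
  refine le_trans (length_quot_le_of_le ?_) h
  rw [frobPow]
  exact Ideal.span_mono (Set.image_mono hT)

lemma exists_bound [IsNoetherianRing S] {h : ℕ} (hdim : ringKrullDim S = h) :
    ∃ C : ℕ, ∀ Q : ℕ, Module.length S (S ⧸ frobPow (maximalIdeal S) Q) ≤
      (Q : ℕ∞) ^ h * C := by
  obtain ⟨T, hT, hcard⟩ :=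
    Ideal.exists_finset_card_eq_height_of_isNoetherianRing (maximalIdeal S)
  have hh : T.card = h := by
    have h1 : ((maximalIdeal S).height : WithBot ℕ∞) = ringKrullDim S :=
      IsLocalRing.maximalIdeal_height_eq_ringKrullDim
    rw [hdim, ← hcard] at h1
    exact_mod_cast h1
  have hart : IsArtinianRing (S ⧸ (Ideal.span (T : Set S))) :=
    IsLocalRing.quotient_artinian_of_mem_minimalPrimes_of_isLocalRing _ hT
  have hfin : Module.length S (S ⧸ (Ideal.span (T : Set S))) ≠ ⊤ := by
    have h1 : Module.length (S ⧸ (Ideal.span (T : Set S))) (S ⧸ (Ideal.span (T : Set S))) ≠ ⊤ :=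
      Module.length_ne_top
    rwa [← Module.length_eq_of_surjective (R := S ⧸ (Ideal.span (T : Set S)))
      (S := S) (M := S ⧸ (Ideal.span (T : Set S))) Ideal.Quotient.mk_surjective] at h1
  obtain ⟨C, hC⟩ := ENat.ne_top_iff_exists.1 hfin
  refine ⟨C, fun Q => ?_⟩
  have hsub : (T : Set S) ⊆ maximalIdeal S := by
    intro x hx
    exact hT.1.2 (Ideal.subset_span hx)
  have := length_frobPow_le T hsub Q
  rw [hh, ← hC] at this
  exact this

lemma regular_bound (hreg : IsRegularLocalRing S) {h : ℕ} (hdim : ringKrullDim S = h) (Q : ℕ) :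
    Module.length S (S ⧸ frobPow (maximalIdeal S) Q) ≤ (Q : ℕ∞) ^ h := by
  have h1 := hreg.spanFinrank_maximalIdeal
  rw [hdim] at h1
  have h1' : (maximalIdeal S).spanFinrank = h := by exact_mod_cast h1
  have hfg : (maximalIdeal S).FG := IsNoetherian.noetherian _
  obtain ⟨T, hT1, hT2⟩ := Submodule.FG.exists_span_finset_card_eq_spanFinrank hfg
  have hsub : (T : Set S) ⊆ maximalIdeal S := by
    intro x hx
    rw [← hT2]
    exact Submodule.subset_span hx
  have h2 := length_frobPow_le T hsub Q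
  rw [hT1, h1', Ideal.span, hT2] at h2
  have h3 : Module.length S (S ⧸ maximalIdeal S) = 1 := by
    rw [Module.length_eq_one_iff, isSimpleModule_iff_isCoatom]
    exact (maximalIdeal.isMaximal S).out
  rwa [h3, mul_one] at h2

end LocalDim

end Pool.Agent.H956R2.HK
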