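import Mathlib
import Pool.Agent.H956R2.HK.LemL

set_option autoImplicit false

namespace Pool.Agent.H956R2.HK

open IsLocalRing

section Length

variable {k S : Type*} [Field k] [CommRing S] [IsLocalRing S] [Algebra k S]

/-- Length over a local `k`-algebra with residue field `k` is the dimension over `k`. -/
lemma length_eq_length (hres : ∀ s : S, ∃ c : k, s - algebraMap k S c ∈ maximalIdeal S)
    (M : Type*) [AddCommGroup M] [Module S M] [Module k M] [IsScalarTower k S M] :
    Module.length S M = Module.length k M := by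
  have : IsLocalHom (algebraMap k S) := inferInstance
  have h1 := IsLocalRing.length_restrictScalars k S M
  have h2 := IsLocalRing.length_restrictScalars k S (S ⧸ maximalIdeal S)
  have h3 : Module.length S (S ⧸ maximalIdeal S) = 1 := by
    rw [Module.length_eq_one_iff, isSimpleModule_iff_isCoatom]
    exact (maximalIdeal.isMaximal S).out
  have h4 : Module.length k (S ⧸ maximalIdeal S) = 1 := by
    have hb : Function.Bijective (Algebra.linearMap k (S ⧸ maximalIdeal S)) := by
      constructor
      · exact (algebraMap k (S ⧸ maximalIdeal S)).injective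
      · intro x
        obtain ⟨s, rfl⟩ := Ideal.Quotient.mk_surjective x
        obtain ⟨c, hc⟩ := hres s
        refine ⟨c, ?_⟩
        rw [← sub_eq_zero, Algebra.linearMap_apply, ← neg_eq_zero, neg_sub]
        exact Ideal.Quotient.eq_zero_iff_mem.2 hc
    rw [← (LinearEquiv.ofBijective _ hb).length_eq, Module.length_eq_one_iff]
    infer_instance
  rw [h3, h4, one_mul] at h2
  rw [h1, ← h2, mul_one]

end Length

section Loc

variable {k R : Type*} [Field k] [CommRing R] [Algebra k R] (m : Ideal R) [m.IsMaximal]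
  {p : ℕ} [Fact p.Prime] [CharP R p]

omit [m.IsMaximal] in
lemma unit_mod (hres : ∀ r : R, ∃ c : k, r - algebraMap k R c ∈ m) (e : ℕ) {s : R} (hs : s ∉ m) :
    ∃ s', s * s' - 1 ∈ frobPow m (p ^ e) := by
  obtain ⟨c, hc⟩ := hres s
  have hc0 : c ≠ 0 := by
    rintro rfl
    rw [map_zero, sub_zero] at hc
    exact hs hc
  have hQ : 1 ≤ p ^ e := Nat.one_le_pow _ _ (Fact.out : p.Prime).pos
  refine ⟨s ^ (p ^ e - 1) * algebraMap k R (c ^ (p ^ e))⁻¹, ?_⟩
  have h1 : s * (s ^ (p ^ e - 1) * algebraMap k R (c ^ (p ^ e))⁻¹) - 1 =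
      algebraMap k R (c ^ (p ^ e))⁻¹ * (s - algebraMap k R c) ^ (p ^ e) := by
    rw [sub_pow_char_pow, mul_sub, ← map_pow, ← map_mul, inv_mul_cancel₀ (pow_ne_zero _ hc0),
      map_one, ← mul_assoc, ← pow_succ', Nat.sub_add_cancel hQ, mul_comm]
  rw [h1]
  exact Ideal.mul_mem_left _ _ (Ideal.subset_span ⟨_, hc, rfl⟩)

variable {S : Type*} [CommRing S] [Algebra R S] [IsLocalization.AtPrime S m]
  [Algebra k S] [IsScalarTower k R S]

variable (k S) in
/-- The comparison map. -/
noncomputable def locMap (J : Ideal R) : (R ⧸ J) →ₐ[k] (S ⧸ J.map (algebraMap R S)) :=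
  Ideal.quotientMapₐ (J.map (algebraMap R S)) (IsScalarTower.toAlgHom k R S) Ideal.le_comap_map

lemma locMap_bijective (J : Ideal R) (hJ : ∀ s ∉ m, ∃ s', s * s' - 1 ∈ J) :
    Function.Bijective (locMap k S J) := by
  have hmk : ∀ r : R, locMap k S J (Ideal.Quotient.mk J r) =
      Ideal.Quotient.mk (J.map (algebraMap R S)) (algebraMap R S r) := fun r => rfl
  constructor
  · rw [injective_iff_map_eq_zero]
    intro x hx
    obtain ⟨r, rfl⟩ := Ideal.Quotient.mk_surjective x
    rw [hmk, Ideal.Quotient.eq_zero_iff_mem,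
      IsLocalization.mem_map_algebraMap_iff m.primeCompl S] at hx
    obtain ⟨⟨j, s⟩, hjs⟩ := hx
    rw [← map_mul, IsLocalization.eq_iff_exists m.primeCompl S] at hjs
    obtain ⟨t, ht⟩ := hjs
    have hts : (t : R) * s ∉ m := (t * s).2
    obtain ⟨s', hs'⟩ := hJ _ hts
    rw [Ideal.Quotient.eq_zero_iff_mem]
    have e : r = s' * (t * (r * s)) - r * (t * s * s' - 1) := by ring
    rw [e, ht]
    exact J.sub_mem (J.mul_mem_left _ (J.mul_mem_left _ j.2)) (J.mul_mem_left _ hs')
  · intro y
    obtain ⟨σ, rfl⟩ := Ideal.Quotient.mk_surjective y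
    obtain ⟨r, s, rfl⟩ := IsLocalization.exists_mk'_eq m.primeCompl σ
    obtain ⟨s', hs'⟩ := hJ s s.2
    refine ⟨Ideal.Quotient.mk J (r * s'), ?_⟩
    rw [hmk, Ideal.Quotient.eq]
    have hu : IsUnit (algebraMap R S s) := IsLocalization.map_units S s
    have h1 : (algebraMap R S (r * s') - IsLocalization.mk' S r s) * algebraMap R S s ∈
        J.map (algebraMap R S) := by
      have : (algebraMap R S (r * s') - IsLocalization.mk' S r s) * algebraMap R S s =
          algebraMap R S (r * (s * s' - 1)) := by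
        rw [sub_mul, IsLocalization.mk'_spec, ← map_mul, ← map_sub]
        congr 1
        ring
      rw [this]
      exact Ideal.mem_map_of_mem _ (J.mul_mem_left _ hs')
    rw [Ideal.mul_unit_mem_iff_mem _ hu] at h1
    exact h1

lemma res_loc [IsLocalRing S] (hres : ∀ r : R, ∃ c : k, r - algebraMap k R c ∈ m) (σ : S) :
    ∃ c : k, σ - algebraMap k S c ∈ maximalIdeal S := by
  obtain ⟨r, s, rfl⟩ := IsLocalization.exists_mk'_eq m.primeCompl σ
  obtain ⟨a, ha⟩ := hres r
  obtain ⟨b, hb⟩ := hres s
  have hb0 : b ≠ 0 := by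
    rintro rfl
    rw [map_zero, sub_zero] at hb
    exact s.2 hb
  refine ⟨a * b⁻¹, ?_⟩
  have hu : IsUnit (algebraMap R S s) := IsLocalization.map_units S s
  rw [← Ideal.mul_unit_mem_iff_mem _ hu]
  have hmem : ∀ x ∈ m, algebraMap R S x ∈ maximalIdeal S := by
    intro x hx
    rw [IsLocalRing.mem_maximalIdeal, mem_nonunits_iff,
      IsLocalization.AtPrime.isUnit_to_map_iff S m]
    exact fun h => h hx
  have h1 : (IsLocalization.mk' S r s - algebraMap k S (a * b⁻¹)) * algebraMap R S s =
      algebraMap R S (r - algebraMap k R a) -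
        algebraMap k S (a * b⁻¹) * algebraMap R S (s - algebraMap k R b) := by
    rw [sub_mul, IsLocalization.mk'_spec, map_sub, map_sub, mul_sub,
      ← IsScalarTower.algebraMap_apply, ← IsScalarTower.algebraMap_apply, ← map_mul (algebraMap k S),
      mul_assoc, inv_mul_cancel₀ hb0, mul_one]
    ring
  rw [h1]
  exact Ideal.sub_mem _ (hmem _ ha) (Ideal.mul_mem_left _ _ (hmem _ hb))

/-- The Hilbert-Kunz lengths of the localization. -/
theorem length_loc [IsLocalRing S] [CharP S p]
    (hres : ∀ r : R, ∃ c : k, r - algebraMap k R c ∈ m) (e : ℕ)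
    [FiniteDimensional k (R ⧸ frobPow m (p ^ e))] :
    Module.length S (S ⧸ frobPow (maximalIdeal S) (p ^ e)) =
      (Module.finrank k (R ⧸ frobPow m (p ^ e)) : ℕ) := by
  have h1 : maximalIdeal S = m.map (algebraMap R S) :=
    (IsLocalization.AtPrime.map_eq_maximalIdeal m S).symm
  have h2 : frobPow (maximalIdeal S) (p ^ e) = (frobPow m (p ^ e)).map (algebraMap R S) := by
    rw [h1, frobPow_map]
  have h3 := locMap_bijective (k := k) (S := S) m (frobPow m (p ^ e))
    (fun s hs => unit_mod m hres e hs)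
  rw [h2, length_eq_length (k := k) (res_loc m hres),
    ← (LinearEquiv.ofBijective (locMap k S (frobPow m (p ^ e))).toLinearMap h3).length_eq,
    Module.length_eq_finrank]

end Loc

end Pool.Agent.H956R2.HK
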