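import Mathlib
import Pool.Agent.H956R2.HK.KPlusI
import Pool.Agent.H956R2.HK.Local

set_option autoImplicit false

namespace Pool.Agent.H956R2.HK

section Krull

variable {k B : Type*} [Field k] [CommRing B] [Algebra k B]

lemma mI_height_le {I : Ideal B} (hI : I ≠ ⊤) [IsNoetherianRing (kI k I)] {ι : Type*} [Fintype ι]
    (g : ι → B) (hg : ∀ i, g i ∈ I) (hrad : I ≤ (Ideal.span (Set.range g)).radical) :
    (mI k I).height ≤ Fintype.card ι := by
  classical
  have hmax : (mI k I).IsMaximal := mI_maximal hI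
  let g' : ι → kI k I := fun i => ⟨g i, mem_kI_of_mem (hg i)⟩
  have hmin : mI k I ∈ (Ideal.span ((Finset.univ.image g' : Finset (kI k I)) :
      Set (kI k I))).minimalPrimes := by
    rw [Finset.coe_image, Finset.coe_univ, Set.image_univ]
    refine ⟨⟨hmax.isPrime, ?_⟩, ?_⟩
    · rw [Ideal.span_le]
      rintro _ ⟨i, rfl⟩
      exact hg i
    · rintro P ⟨hP, hPle⟩ _ x hx
      obtain ⟨a, ha⟩ := hrad (mem_mI.1 hx)
      obtain ⟨b, hb⟩ := Ideal.mem_span_range_iff_exists_fun.1 ha
      have h1 : x ^ (a + 1) = ∑ i, (⟨x * b i, mem_kI_of_mem (I.mul_mem_right _ hx)⟩ : kI k I) *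
          g' i := by
        apply Subtype.ext
        simp only [AddSubmonoidClass.coe_finsetSum, MulMemClass.coe_mul, SubmonoidClass.coe_pow, g']
        rw [pow_succ', ← hb, Finset.mul_sum]
        refine Finset.sum_congr rfl fun i _ => ?_
        ring
      have h2 : x ^ (a + 1) ∈ P := by
        rw [h1]
        refine Ideal.sum_mem _ fun i _ => ?_
        exact Ideal.mul_mem_left _ _ (hPle (Ideal.subset_span ⟨i, rfl⟩))
      exact hP.mem_of_pow_mem _ h2
  refine (Ideal.height_le_card_of_mem_minimalPrimes_span_finset hmin).trans ?_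
  exact_mod_cast Finset.card_image_le.trans (by rw [Finset.card_univ])

end Krull

end Pool.Agent.H956R2.HK
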