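import Mathlib
import Pool.Agent.H956R2.HK.Krull
import Pool.Agent.H956R2.HK.BCons

set_option autoImplicit false

namespace Pool.Agent.H956R2.HK

open Filter Topology IsLocalRing

universe u

/-- the Hilbert-Kunz multiplicity of a local ring of dimension `d` is `a` -/
def HasHK (p : ℕ) (R : Type*) [CommRing R] [IsLocalRing R] (d : ℕ) (a : ℝ) : Prop :=
  (∀ e : ℕ, Module.length R (R ⧸ frobPow (maximalIdeal R) (p ^ e)) ≠ ⊤) ∧
  Tendsto (fun e : ℕ => ((Module.length R (R ⧸ frobPow (maximalIdeal R) (p ^ e))).toNat : ℝ) /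
    (p : ℝ) ^ (e * d)) atTop (𝓝 a)

section DimFromLimit

variable {S : Type*} [CommRing S] [IsLocalRing S] {p : ℕ} [Fact p.Prime]

lemma dim_of_HK [IsNoetherianRing S] {d : ℕ} {a : ℝ} (h : HasHK p S d a) (ha : 0 < a)
    (hd : ringKrullDim S ≤ d) : ringKrullDim S = d := by
  have hp : 1 < (p : ℝ) := by exact_mod_cast (Fact.out : p.Prime).one_lt
  have hfin : ∃ h : ℕ, ringKrullDim S = h := by
    have h1 : ((maximalIdeal S).height : WithBot ℕ∞) = ringKrullDim S :=
      IsLocalRing.maximalIdeal_height_eq_ringKrullDim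
    have h2 : ((maximalIdeal S).height : WithBot ℕ∞) ≤ ((d : ℕ∞) : WithBot ℕ∞) := by
      rw [h1]
      exact_mod_cast hd
    have h3 : (maximalIdeal S).height ≤ d := by exact_mod_cast h2
    obtain ⟨n, hn⟩ := ENat.ne_top_iff_exists.1 (ne_top_of_le_ne_top (ENat.natCast_ne_top d) h3)
    refine ⟨n, ?_⟩
    rw [← h1, ← hn]
    rfl
  obtain ⟨n, hn⟩ := hfin
  rw [hn]
  have hnd : n ≤ d := by
    rw [hn] at hd
    exact_mod_cast hd
  rcases hnd.lt_or_eq with hlt | heq
  · exfalso
    obtain ⟨C, hC⟩ := exists_bound hn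
    have hle : ∀ e : ℕ, ((Module.length S (S ⧸ frobPow (maximalIdeal S) (p ^ e))).toNat : ℝ) /
        (p : ℝ) ^ (e * d) ≤ C * (1 / (p : ℝ)) ^ e := by
      intro e
      have h1 : ((Module.length S (S ⧸ frobPow (maximalIdeal S) (p ^ e))).toNat : ℝ) ≤
          ((p : ℝ) ^ e) ^ n * C := by
        have h2 := ENat.toNat_le_toNat (hC (p ^ e)) (by
          rw [← Nat.cast_pow, ← Nat.cast_mul]
          exact ENat.natCast_ne_top _)
        rw [← Nat.cast_pow, ← Nat.cast_mul, ENat.toNat_natCast] at h2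
        exact_mod_cast h2
      rw [div_le_iff₀ (by positivity)]
      refine h1.trans ?_
      have h3 : ((p : ℝ) ^ e) ^ n * (p : ℝ) ^ e ≤ (p : ℝ) ^ (e * d) := by
        rw [← pow_succ, ← pow_mul]
        exact pow_le_pow_right₀ hp.le (Nat.mul_le_mul_left _ hlt)
      have h4 : (1 / (p : ℝ)) ^ e * (p : ℝ) ^ e = 1 := by
        rw [← mul_pow, one_div, inv_mul_cancel₀ (by positivity), one_pow]
      have h5 : (0 : ℝ) ≤ (1 / (p : ℝ)) ^ e := by positivity
      have h6 : ((p : ℝ) ^ e) ^ n ≤ (1 / (p : ℝ)) ^ e * (p : ℝ) ^ (e * d) := by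
        calc ((p : ℝ) ^ e) ^ n = (1 / (p : ℝ)) ^ e * (((p : ℝ) ^ e) ^ n * (p : ℝ) ^ e) := by
              linear_combination - ((p : ℝ) ^ e) ^ n * h4
          _ ≤ _ := mul_le_mul_of_nonneg_left h3 h5
      have hC0 : (0 : ℝ) ≤ C := by positivity
      nlinarith
    have hlim : Tendsto (fun e : ℕ => (C : ℝ) * (1 / (p : ℝ)) ^ e) atTop (𝓝 0) := by
      have : Tendsto (fun e : ℕ => (1 / (p : ℝ)) ^ e) atTop (𝓝 0) := by
        apply tendsto_pow_atTop_nhds_zero_of_lt_one (by positivity)
        rw [div_lt_one (by positivity)]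
        exact hp
      have := this.const_mul (C : ℝ)
      rwa [mul_zero] at this
    have := le_of_tendsto_of_tendsto' h.2 hlim hle
    linarith
  · rw [heq]

lemma not_regular_of_HK {d : ℕ} {a : ℝ} (h : HasHK p S d a) (ha : 1 < a)
    (hd : ringKrullDim S = d) : ¬ IsRegularLocalRing S := by
  intro hreg
  have hp : 0 < (p : ℝ) := by exact_mod_cast (Fact.out : p.Prime).pos
  have hle : ∀ e : ℕ, ((Module.length S (S ⧸ frobPow (maximalIdeal S) (p ^ e))).toNat : ℝ) /
      (p : ℝ) ^ (e * d) ≤ 1 := by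
    intro e
    rw [div_le_one (by positivity)]
    have h2 := ENat.toNat_le_toNat (regular_bound hreg hd (p ^ e)) (by
      rw [← Nat.cast_pow]
      exact ENat.natCast_ne_top _)
    rw [← Nat.cast_pow, ENat.toNat_natCast, ← pow_mul] at h2
    exact_mod_cast h2
  have := le_of_tendsto' h.2 hle
  linarith

end DimFromLimit

section Assemble

/-- The local rings for a fixed parameter `κ`. -/
theorem main_k (k : Type u) [Field k] [Finite k] {p : ℕ} [Fact p.Prime] [CharP k p] {f n : ℕ}
    (hf : p ^ f = n + 2) (hn : 1 ≤ n) (κ : k) (s : ℕ)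
    (hne : ∀ j ≤ s, cseq (n + 2) κ j ≠ 0) (hs : cseq (n + 2) κ (s + 1) = 0) (m : ℕ) :
    ∃ (R : Type u) (_ : CommRing R) (_ : Algebra k R) (P : Ideal R) (_ : P.IsMaximal) (a : ℝ),
      Algebra.FiniteType k R ∧ ringKrullDim (Localization.AtPrime P) = (m + 2 : ℕ) ∧
      ¬ IsRegularLocalRing (Localization.AtPrime P) ∧
      HasHK p (Localization.AtPrime P) (m + 2) a ∧
      3 * ((n : ℝ) + 2) ^ 2 < a ∧
      a ≤ 3 * ((n : ℝ) + 2) ^ 2 + 4 * ((n : ℝ) + 2) ^ 2 / ((n : ℝ) + 2) ^ s := by
  obtain ⟨L, hL, hL1, hL2⟩ := lim_bounds hf hn κ s hne hs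
  obtain ⟨B, _, _, _, _, _, _, _, z₁, z₂, hz, hrank⟩ := exists_B k n
  have hp : 1 < (p : ℝ) := by exact_mod_cast (Fact.out : p.Prime).one_lt
  have hcB : CharP B p := charP_of_injective_algebraMap (algebraMap k B).injective p
  -- the ring and the ideal
  let B' := MvPolynomial (Fin m) B
  let I : Ideal B' := EQ (IQ κ z₁ z₂ 1) m 1
  have hcB' : CharP B' p := charP_of_injective_algebraMap (algebraMap k B').injective p
  have hfr : ∀ e, frobPow I (p ^ e) = EQ (IQ κ z₁ z₂ (p ^ e)) m (p ^ e) := by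
    intro e
    rw [frobPow_EQ, frobPow_IQ]
  have hfinI : FiniteDimensional k (B' ⧸ I) := finite_EQ _ _ _
  have hfinQ : ∀ e, FiniteDimensional k (B' ⧸ frobPow I (p ^ e)) := by
    intro e
    rw [hfr]
    exact finite_EQ _ _ _
  have hdim : ∀ e, Module.finrank k (B' ⧸ frobPow I (p ^ e)) =
      (p ^ e) ^ m * Module.finrank k (B ⧸ IQ κ z₁ z₂ (p ^ e)) := by
    intro e
    rw [hfr, finrank_EQ]
  -- the limit for `B'`
  have hlimB : Tendsto (fun e : ℕ => (Module.finrank k (B' ⧸ frobPow I (p ^ e)) : ℝ) /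
      (p : ℝ) ^ (e * (m + 2))) atTop (𝓝 (((n : ℝ) + 2) ^ 2 * L)) := by
    have h1 := B_lim hf κ hz hL
    rw [hrank] at h1
    refine (h1.congr fun e => ?_).trans (le_of_eq ?_)
    · rw [hdim, Nat.cast_mul, Nat.cast_pow, Nat.cast_pow, pow_mul, pow_add]
      have : ((p : ℝ) ^ e) ^ m ≠ 0 := by positivity
      field_simp
    · congr 1
      push_cast
      ring
  have ha0 : 0 < ((n : ℝ) + 2) ^ 2 * L := by positivity
  have hItop : I ≠ ⊤ := by
    intro htop
    have h1 : ∀ e : ℕ, (Module.finrank k (B' ⧸ frobPow I (p ^ e)) : ℝ) /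
        (p : ℝ) ^ (e * (m + 2)) = 0 := by
      intro e
      have h2 : frobPow I (p ^ e) = ⊤ := by
        rw [Ideal.eq_top_iff_one]
        exact Ideal.subset_span ⟨1, by rw [htop]; trivial, one_pow _⟩
      rw [h2]
      have : Subsingleton (B' ⧸ (⊤ : Ideal B')) := Ideal.Quotient.subsingleton_iff.2 rfl
      rw [Module.finrank_zero_of_subsingleton, Nat.cast_zero, zero_div]
    have h3 : Tendsto (fun e : ℕ => (Module.finrank k (B' ⧸ frobPow I (p ^ e)) : ℝ) /
      (p : ℝ) ^ (e * (m + 2))) atTop (𝓝 0) := by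
      refine (tendsto_const_nhds (x := (0 : ℝ))).congr fun e => (h1 e).symm
    have := tendsto_nhds_unique hlimB h3
    exact ha0.ne' this
  have hmax : (mI k I).IsMaximal := mI_maximal hItop
  -- finiteness
  have hftB : Algebra.FiniteType k B :=
    Algebra.FiniteType.trans (S := MvPolynomial (Fin 2) k) inferInstance inferInstance
  have hftB' : Algebra.FiniteType k B' :=
    Algebra.FiniteType.trans (S := B) inferInstance inferInstance
  have hnoB' : IsNoetherianRing B' := Algebra.FiniteType.isNoetherianRing k B'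
  have hft : Algebra.FiniteType k (kI k I) := kI_finiteType I
  have hnoR : IsNoetherianRing (kI k I) := Algebra.FiniteType.isNoetherianRing k _
  have hcR : CharP (kI k I) p :=
    charP_of_injective_algebraMap (algebraMap k (kI k I)).injective p
  -- generators
  obtain ⟨N, g, hg⟩ := Submodule.fg_iff_exists_fin_generating_family.1
    (IsNoetherian.noetherian I : I.FG)
  have hgI : ∀ i, g i ∈ I := by
    intro i
    rw [← hg]
    exact Submodule.subset_span ⟨i, rfl⟩
  have hspan : ∀ e, frobPow I (p ^ e) = Ideal.span (Set.range fun i => g i ^ (p ^ e)) := by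
    intro e
    conv_lhs => rw [← hg]
    rw [← Ideal.span, frobPow_span, ← Set.range_comp]
    rfl
  have hcmp : ∀ e, _ := fun e => kI_compare (k := k) I g hgI
    (Q := p ^ e) (pow_ne_zero _ (Fact.out : p.Prime).ne_zero) (hspan e)
  have hcL : CharP (Localization.AtPrime (mI k I)) p := by
    refine charP_of_injective_algebraMap (algebraMap k (Localization.AtPrime (mI k I))).injective p
  have hlen : ∀ e, Module.length (Localization.AtPrime (mI k I)) (Localization.AtPrime (mI k I) ⧸
      frobPow (maximalIdeal (Localization.AtPrime (mI k I))) (p ^ e)) =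
      (Module.finrank k (kI k I ⧸ frobPow (mI k I) (p ^ e)) : ℕ) := by
    intro e
    have := (hcmp e).1
    exact length_loc (k := k) (mI k I) mI_residue e
  have hHK : HasHK p (Localization.AtPrime (mI k I)) (m + 2) (((n : ℝ) + 2) ^ 2 * L) := by
    refine ⟨fun e => ?_, ?_⟩
    · rw [hlen]
      exact ENat.natCast_ne_top _
    · simp only [hlen, ENat.toNat_natCast]
      set Cst : ℝ := ((N * Module.finrank k (B' ⧸ I) + Module.finrank k (B' ⧸ I) : ℕ) : ℝ)
        with hCst
      have h0 : Tendsto (fun e : ℕ => Cst * (1 / (p : ℝ)) ^ e) atTop (𝓝 0) := by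
        have : Tendsto (fun e : ℕ => (1 / (p : ℝ)) ^ e) atTop (𝓝 0) := by
          apply tendsto_pow_atTop_nhds_zero_of_lt_one (by positivity)
          rw [div_lt_one (by positivity)]
          exact hp
        have := this.const_mul Cst
        rwa [mul_zero] at this
      have h4 : Tendsto (fun e : ℕ =>
          (Module.finrank k (kI k I ⧸ frobPow (mI k I) (p ^ e)) : ℝ) / (p : ℝ) ^ (e * (m + 2)) -
          (Module.finrank k (B' ⧸ frobPow I (p ^ e)) : ℝ) / (p : ℝ) ^ (e * (m + 2)))
          atTop (𝓝 0) := by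
        refine squeeze_zero_norm (fun e => ?_) h0
        obtain ⟨-, c1, c2⟩ := hcmp e
        have c1' : (Module.finrank k (kI k I ⧸ frobPow (mI k I) (p ^ e)) : ℝ) ≤
            Module.finrank k (B' ⧸ frobPow I (p ^ e)) + Cst := by
          rw [hCst]
          exact_mod_cast (by omega)
        have c2' : (Module.finrank k (B' ⧸ frobPow I (p ^ e)) : ℝ) ≤
            Module.finrank k (kI k I ⧸ frobPow (mI k I) (p ^ e)) + Cst := by
          rw [hCst]
          exact_mod_cast (by omega)
        rw [Real.norm_eq_abs, ← sub_div, abs_div, abs_of_pos (show (0 : ℝ) < (p : ℝ) ^ (e * (m + 2))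
          by positivity), div_le_iff₀ (by positivity)]
        have h5 : |(Module.finrank k (kI k I ⧸ frobPow (mI k I) (p ^ e)) : ℝ) -
            Module.finrank k (B' ⧸ frobPow I (p ^ e))| ≤ Cst := by
          rw [abs_le]
          constructor <;> linarith
        refine h5.trans ?_
        have hC0 : 0 ≤ Cst := by positivity
        have h6 : (1 : ℝ) ≤ (1 / (p : ℝ)) ^ e * (p : ℝ) ^ (e * (m + 2)) := by
          rw [one_div, inv_pow, pow_mul, pow_succ ((p : ℝ) ^ e), mul_comm _ ((p : ℝ) ^ e),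
            ← mul_assoc, inv_mul_cancel₀ (by positivity), one_mul]
          exact one_le_pow₀ (one_le_pow₀ hp.le)
        nlinarith
      have := h4.add hlimB
      simpa using this
  -- Krull dimension
  have hheight : (mI k I).height ≤ (m + 2 : ℕ) := by
    let g' : Fin m ⊕ Fin 2 → B' := Sum.elim (fun i : Fin m => MvPolynomial.X i)
      (fun j : Fin 2 => MvPolynomial.C
        (algebraMap (MvPolynomial (Fin 2) k) B (MvPolynomial.X j ^ (2 * 1))))
    have hgmem : ∀ j : Fin 2, (MvPolynomial.C (algebraMap (MvPolynomial (Fin 2) k) B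
        (MvPolynomial.X j ^ (2 * 1))) : B') ∈ I := by
      intro j
      refine Ideal.mem_sup_left (Ideal.mem_map_of_mem _ (Ideal.mem_sup_left
        (Ideal.mem_map_of_mem _ (Ideal.subset_span ?_))))
      fin_cases j <;> simp
    have hrad : ∀ j : Fin 2, (MvPolynomial.C (algebraMap (MvPolynomial (Fin 2) k) B
        (MvPolynomial.X j)) : B') ∈ (Ideal.span (Set.range g')).radical := by
      intro j
      refine ⟨2 * 1, ?_⟩
      rw [← map_pow, ← map_pow]
      exact Ideal.subset_span ⟨Sum.inr j, rfl⟩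
    have h := mI_height_le (k := k) hItop g' (by
      rintro (i | j)
      · refine Ideal.mem_sup_right (Ideal.subset_span ⟨i, ?_⟩)
        simp [g']
      · exact hgmem j) (by
      refine sup_le ?_ ?_
      · rw [Ideal.map_le_iff_le_comap]
        refine sup_le ?_ ?_
        · rw [Ideal.map_le_iff_le_comap, I0, Ideal.span_le]
          rintro _ (rfl | rfl)
          · exact Ideal.le_radical (Ideal.subset_span ⟨Sum.inr 0, rfl⟩)
          · exact Ideal.le_radical (Ideal.subset_span ⟨Sum.inr 1, rfl⟩)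
        · rw [Ideal.span_singleton_le_iff_mem, Ideal.mem_comap, pow_one, zel]
          simp only [map_add, map_mul]
          refine Ideal.add_mem _ (Ideal.add_mem _ ?_ ?_) ?_
          · exact Ideal.mul_mem_left _ _ (hrad 1)
          · exact Ideal.mul_mem_right _ _ (hrad 0)
          · exact Ideal.mul_mem_right _ _ (hrad 1)
      · rw [Ideal.span_le]
        rintro _ ⟨i, rfl⟩
        refine Ideal.le_radical (Ideal.subset_span ⟨Sum.inl i, ?_⟩)
        simp [g'])
    rwa [Fintype.card_sum, Fintype.card_fin, Fintype.card_fin] at h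
  have hdimle : ringKrullDim (Localization.AtPrime (mI k I)) ≤ ((m + 2 : ℕ) : WithBot ℕ∞) := by
    rw [IsLocalization.AtPrime.ringKrullDim_eq_height (mI k I) (Localization.AtPrime (mI k I))]
    exact WithBot.coe_le_coe.2 hheight
  have hnoL : IsNoetherianRing (Localization.AtPrime (mI k I)) := inferInstance
  have hdimeq := dim_of_HK hHK ha0 hdimle
  have hn2 : (0 : ℝ) < ((n : ℝ) + 2) ^ 2 := by positivity
  have hn4 : (1 : ℝ) ≤ ((n : ℝ) + 2) ^ 2 := one_le_pow₀ (by
    have : (0 : ℝ) ≤ n := by positivity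
    linarith)
  refine ⟨kI k I, inferInstance, inferInstance, mI k I, hmax, ((n : ℝ) + 2) ^ 2 * L, hft, hdimeq,
    ?_, hHK, ?_, ?_⟩
  · refine not_regular_of_HK hHK ?_ hdimeq
    nlinarith
  · nlinarith
  · have : ((n : ℝ) + 2) ^ 2 * L ≤ ((n : ℝ) + 2) ^ 2 * (3 + 4 / ((n : ℝ) + 2) ^ s) :=
      mul_le_mul_of_nonneg_left hL2 hn2.le
    refine this.trans (le_of_eq ?_)
    ring

end Assemble

end Pool.Agent.H956R2.HK
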