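import Mathlib
import Pool.Agent.H956R2.HK.Main

set_option autoImplicit false

namespace Pool.Agent.H956R2.HK

open Filter Topology IsLocalRing

universe u

lemma cseq_map {k K : Type*} [Field k] [Field K] (φ : k →+* K) (q : ℕ) (κ : k) (j : ℕ) :
    φ (cseq q κ j) = cseq q (φ κ) j := by
  induction j with
  | zero => rfl
  | succ j ih => rw [cseq, cseq, map_sub, map_inv₀, map_pow, ih]

lemma exists_back {K : Type*} [Field K] [IsAlgClosed K] {q : ℕ} (hq : 0 < q) (c : K) :
    ∃ t : K, t ≠ 0 ∧ t ^ q - (t ^ q)⁻¹ = c := by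
  obtain ⟨v, hv⟩ := IsAlgClosed.exists_root
    (Polynomial.X ^ 2 - Polynomial.C c * Polynomial.X - 1 : Polynomial K) (by
      have : (Polynomial.X ^ 2 - Polynomial.C c * Polynomial.X - 1 : Polynomial K).degree = 2 := by
        compute_degree!
      rw [this]
      decide)
  have hv' : v ^ 2 - c * v - 1 = 0 := by
    simpa [Polynomial.IsRoot.def] using hv
  have hv0 : v ≠ 0 := by
    rintro rfl
    simp at hv'
  obtain ⟨t, ht⟩ := IsAlgClosed.exists_pow_nat_eq v hq
  refine ⟨t, ?_, ?_⟩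
  · rintro rfl
    rw [zero_pow hq.ne'] at ht
    exact hv0 ht.symm
  · rw [ht]
    field_simp
    linear_combination hv'

lemma exists_orbit (K : Type*) [Field K] [IsAlgClosed K] {q : ℕ} (hq : 0 < q) :
    ∃ w : ℕ → K, w 0 = 0 ∧ ∀ j, w (j + 1) ≠ 0 ∧ w (j + 1) ^ q - (w (j + 1) ^ q)⁻¹ = w j := by
  choose t ht0 ht using fun c : K => exists_back hq c
  refine ⟨fun j => Nat.rec (0 : K) (fun _ c => t c) j, rfl, fun j => ⟨ht0 _, ht _⟩⟩

lemma cseq_orbit {K : Type*} [Field K] {q : ℕ} {w : ℕ → K}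
    (hw : ∀ j, w (j + 1) ≠ 0 ∧ w (j + 1) ^ q - (w (j + 1) ^ q)⁻¹ = w j) (N j : ℕ) (hj : j ≤ N) :
    cseq q (w N) j = w (N - j) := by
  induction j with
  | zero => rfl
  | succ j ih =>
    obtain ⟨M, rfl⟩ := Nat.exists_eq_add_of_le hj
    rw [cseq, ih (by omega), show j + 1 + M - j = M + 1 by omega, (hw M).2,
      show j + 1 + M - (j + 1) = M by omega]

lemma exists_kappa (F : Type u) [Field F] (n s : ℕ) :
    ∃ (k : Type u) (_ : Field k) (_ : Algebra F k) (_ : FiniteDimensional F k) (κ : k),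
      (∀ j ≤ s, cseq (n + 2) κ j ≠ 0) ∧ cseq (n + 2) κ (s + 1) = 0 := by
  obtain ⟨w, hw0, hw⟩ := exists_orbit (AlgebraicClosure F) (q := n + 2) (by omega)
  have hint : IsIntegral F (w (s + 1)) := Algebra.IsIntegral.isIntegral _
  let κ : IntermediateField.adjoin F {w (s + 1)} := IntermediateField.AdjoinSimple.gen F (w (s + 1))
  have hκ : algebraMap (IntermediateField.adjoin F {w (s + 1)}) (AlgebraicClosure F) κ =
      w (s + 1) := IntermediateField.AdjoinSimple.algebraMap_gen F (w (s + 1))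
  have hc : ∀ j ≤ s + 1, algebraMap (IntermediateField.adjoin F {w (s + 1)})
      (AlgebraicClosure F) (cseq (n + 2) κ j) = w (s + 1 - j) := by
    intro j hj
    rw [cseq_map, hκ, cseq_orbit hw _ _ hj]
  refine ⟨IntermediateField.adjoin F {w (s + 1)}, inferInstance, inferInstance,
    IntermediateField.adjoin.finiteDimensional hint, κ, ?_, ?_⟩
  · intro j hj h0
    have := hc j (by omega)
    rw [h0, map_zero, show s + 1 - j = (s - j) + 1 by omega] at this
    exact (hw (s - j)).1 this.symm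
  · have := hc (s + 1) le_rfl
    rw [Nat.sub_self, hw0] at this
    exact (map_eq_zero _).1 this

/-- The local rings over a fixed finite field. -/
theorem main_F (F : Type u) [Field F] [Finite F] {p : ℕ} [Fact p.Prime] [CharP F p] {f n : ℕ}
    (hf : p ^ f = n + 2) (hn : 1 ≤ n) (s m : ℕ) :
    ∃ (R : Type u) (_ : CommRing R) (_ : Algebra F R) (P : Ideal R) (_ : P.IsMaximal) (a : ℝ),
      Algebra.FiniteType F R ∧ ringKrullDim (Localization.AtPrime P) = (m + 2 : ℕ) ∧
      ¬ IsRegularLocalRing (Localization.AtPrime P) ∧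
      HasHK p (Localization.AtPrime P) (m + 2) a ∧
      3 * ((n : ℝ) + 2) ^ 2 < a ∧
      a ≤ 3 * ((n : ℝ) + 2) ^ 2 + 4 * ((n : ℝ) + 2) ^ 2 / ((n : ℝ) + 2) ^ s := by
  obtain ⟨k, _, _, _, κ, hne, hs⟩ := exists_kappa F n s
  have hfin : Finite k := Module.finite_of_finite F
  have hchar : CharP k p := charP_of_injective_algebraMap (algebraMap F k).injective p
  obtain ⟨R, _, _, P, _, a, h1, h2, h3, h4, h5, h6⟩ := main_k k hf hn κ s hne hs m
  letI : Algebra F R := ((algebraMap k R).comp (algebraMap F k)).toAlgebra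
  have hst : IsScalarTower F k R := IsScalarTower.of_algebraMap_eq fun _ => rfl
  have hft : Algebra.FiniteType F R := Algebra.FiniteType.trans (S := k) inferInstance h1
  exact ⟨R, inferInstance, inferInstance, P, inferInstance, a, hft, h2, h3, h4, h5, h6⟩

lemma exists_antitone {a : ℕ → ℝ} {α : ℝ} (h1 : ∀ n, α < a n) (h2 : Tendsto a atTop (𝓝 α)) :
    ∃ g : ℕ → ℕ, StrictMono g ∧ StrictAnti (a ∘ g) := by
  obtain ⟨g, hg⟩ := exists_increasing_or_nonincreasing_subseq (· > ·) a
  refine ⟨g, g.strictMono, ?_⟩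
  rcases hg with hg | hg
  · intro m n hmn
    exact hg m n hmn
  · exfalso
    have h3 : ∀ n, a (g 0) ≤ a (g n) := by
      intro n
      rcases Nat.eq_zero_or_pos n with rfl | hn
      · exact le_rfl
      · exact not_lt.1 (hg 0 n hn)
    have h4 : Tendsto (fun n => a (g n)) atTop (𝓝 α) :=
      h2.comp g.strictMono.tendsto_atTop
    have h5 := ge_of_tendsto' h4 h3
    exact absurd (h1 (g 0)) (not_lt.2 h5)

end Pool.Agent.H956R2.HK
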